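import Pool.Agent.Lib.MP_30b5b4_an.FC

/-! Commuting copies of an algebra without characters: one element that is nowhere scalar. -/

set_option linter.unusedSectionVars false
set_option linter.unusedVariables false

namespace Pool.Agent.Lib.MP_30b5b4_an

universe u

variable {Q : Type u} [CStarAlgebra Q]

/-- A seminorm that is contractive for both actions of `D`. -/
def Bim (D : Subring Q) (ν : AddGroupSeminorm Q) : Prop :=
  ∀ a ∈ D, ∀ x, ν (a * x) ≤ ‖a‖ * ν x ∧ ν (x * a) ≤ ‖a‖ * ν x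

/-- The commutators of the `z i` with `D` generate the unit, quantitatively. -/
def NC {ι : Type} (D : Subring Q) (z : ι → Q) (C : ℝ) : Prop :=
  ∀ ν : AddGroupSeminorm Q, Bim D ν → ∀ ε : ℝ, 0 ≤ ε →
    (∀ i, ∀ d ∈ D, ν (z i * d - d * z i) ≤ ε * ‖d‖) → ν 1 ≤ C * ε

lemma NC.merge {n : ℕ} {D D' : Subring Q} (hc : ∀ a ∈ D, ∀ b ∈ D', Commute a b)
    {z w : Fin (n + 2) → Q} (zD : ∀ i, z i ∈ D) (wD : ∀ i, w i ∈ D') {r C : ℝ} (r1 : 1 ≤ r)
    (C0 : 0 ≤ C) (zr : ∀ i, ‖z i‖ ≤ r) (wr : ∀ i, ‖w i‖ ≤ r) (hz : NC D z C) (hw : NC D' w C) :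
    NC (D ⊔ D') (Fin.cons (z 0 + w 0 + z 1 * w 1) fun i => z i.succ.succ + w i.succ.succ :
      Fin (n + 1) → Q) (C * (1 + 4 * r * r * C)) := by
  intro ν hν ε ε0 H
  have l : ∀ {a}, a ∈ D → a ∈ D ⊔ D' := fun h => (le_sup_left : D ≤ D ⊔ D') h
  have l' : ∀ {a}, a ∈ D' → a ∈ D ⊔ D' := fun h => (le_sup_right : D' ≤ D ⊔ D') h
  have H0 := H 0
  have H1 := fun i : Fin n => H i.succ
  simp only [Fin.cons_zero, Fin.cons_succ] at H0 H1
  have r0 : 0 ≤ r := by linarith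
  have key : ∀ b ∈ D', ν (w 1 * b - b * w 1) ≤ 4 * r * C * ε * ‖b‖ := fun b hb => by
    obtain ⟨k, hk⟩ : ∃ k, k = w 1 * b - b * w 1 := ⟨_, rfl⟩
    have kD : k ∈ D' := hk ▸ D'.sub_mem (D'.mul_mem (wD 1) hb) (D'.mul_mem hb (wD 1))
    have b0 := norm_nonneg b
    have kn : ‖k‖ ≤ 2 * r * ‖b‖ := by
      have h1 := norm_mul_le (w 1) b
      have h2 := norm_mul_le b (w 1)
      have h3 := norm_sub_le (w 1 * b) (b * w 1)
      have h4 := mul_le_mul_of_nonneg_right (wr 1) b0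
      rw [hk]
      nlinarith
    have e3 : ∀ a ∈ D, ν ((z 1 * a - a * z 1) * k) ≤ 2 * ε * ‖b‖ * ‖a‖ := fun a ha => by
      obtain ⟨X, hX⟩ : ∃ X, X = (z 0 + w 0 + z 1 * w 1) * a - a * (z 0 + w 0 + z 1 * w 1) :=
        ⟨_, rfl⟩
      have x1 : X = (z 0 * a - a * z 0) + (z 1 * a - a * z 1) * w 1 := by
        rw [hX, add_mul, add_mul, mul_add, mul_add, (hc a ha _ (wD 0)).eq, mul_assoc (z 1),
          ← (hc a ha _ (wD 1)).eq]
        noncomm_ring
      have c0 := hc _ (D.sub_mem (D.mul_mem (zD 0) ha) (D.mul_mem ha (zD 0))) b hb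
      have c1 := hc _ (D.sub_mem (D.mul_mem (zD 1) ha) (D.mul_mem ha (zD 1))) b hb
      have x2 : (z 1 * a - a * z 1) * k = X * b - b * X := by
        rw [x1, add_mul, mul_add, c0.eq, ← mul_assoc b, ← c1.eq, hk]
        noncomm_ring
      have h1 := (hν b (l' hb) X).1
      have h2 := (hν b (l' hb) X).2
      have h3 := H0 a (l ha)
      rw [← hX] at h3
      have h4 := mul_le_mul_of_nonneg_left h3 b0
      have h5 := map_sub_le_add ν (X * b) (b * X)
      rw [x2]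
      nlinarith
    have := hz (ν.comp (AddMonoidHom.mulRight k)) (fun a ha x => ⟨by
      simpa only [AddGroupSeminorm.comp_apply, AddMonoidHom.coe_mulRight, mul_assoc] using
        (hν a (l ha) (x * k)).1, by
      simp only [AddGroupSeminorm.comp_apply, AddMonoidHom.coe_mulRight]
      rw [mul_assoc, (hc a ha k kD).eq, ← mul_assoc]
      exact (hν a (l ha) (x * k)).2⟩) (4 * r * ε * ‖b‖) (by positivity) fun i a ha => by
      simp only [AddGroupSeminorm.comp_apply, AddMonoidHom.coe_mulRight]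
      have a0 := norm_nonneg a
      have t0 : 0 ≤ ε * ‖b‖ * ‖a‖ := by positivity
      have t1 : ∀ X, ν X ≤ ε * ‖a‖ → ν (X * k) ≤ 2 * r * (ε * ‖b‖ * ‖a‖) := fun X hX =>
        ((hν k (l' kD) X).2.trans (mul_le_mul kn hX (apply_nonneg ν X) (by positivity))).trans_eq
          (by ring)
      have t2 := mul_le_mul_of_nonneg_right r1 t0
      refine Fin.cases ?_ (fun i => Fin.cases ?_ (fun i => ?_) i) i
      · have h1 := t1 _ (H0 a (l ha))
        have h2 := (hν _ (l' (wD 1)) ((z 1 * a - a * z 1) * k)).1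
        have h3 := mul_le_mul (wr 1) (e3 a ha) (apply_nonneg ν _) r0
        have c1 := hc _ (D.sub_mem (D.mul_mem (zD 1) ha) (D.mul_mem ha (zD 1))) _ (wD 1)
        have x1 : (z 0 * a - a * z 0) * k =
            ((z 0 + w 0 + z 1 * w 1) * a - a * (z 0 + w 0 + z 1 * w 1)) * k -
              w 1 * ((z 1 * a - a * z 1) * k) := by
          rw [← mul_assoc (w 1), ← c1.eq, ← sub_mul, add_mul, add_mul, mul_add, mul_add,
            (hc a ha _ (wD 0)).eq, mul_assoc (z 1), ← (hc a ha _ (wD 1)).eq]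
          noncomm_ring
        rw [x1]
        refine (map_sub_le_add ν _ _).trans ?_
        nlinarith
      · have h1 := e3 a ha
        change ν ((z 1 * a - a * z 1) * k) ≤ _
        nlinarith
      · have h1 := t1 _ (H1 i a (l ha))
        rw [add_mul, mul_add, (hc a ha _ (wD _)).eq, add_sub_add_right_eq_sub] at h1
        nlinarith
    simp only [AddGroupSeminorm.comp_apply, AddMonoidHom.coe_mulRight, one_mul] at this
    rw [← hk]
    exact this.trans_eq (by ring)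
  refine (hw ν (fun a ha => hν a (l' ha)) ((1 + 4 * r * r * C) * ε) (by positivity)
    fun i b hb => ?_).trans_eq (by ring)
  have b0 := norm_nonneg b
  have t0 : 0 ≤ ε * ‖b‖ := by positivity
  have t1 : 0 ≤ 4 * r * C * ε * ‖b‖ := by positivity
  have t2 := mul_le_mul_of_nonneg_right r1 t1
  have h0 := key b hb
  refine Fin.cases ?_ (fun i => Fin.cases ?_ (fun i => ?_) i) i
  · have h1 := H0 b (l' hb)
    have h2 := (hν _ (l (zD 1)) (w 1 * b - b * w 1)).1
    have h3 := mul_le_mul (zr 1) h0 (apply_nonneg ν _) r0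
    have x1 : w 0 * b - b * w 0 =
        ((z 0 + w 0 + z 1 * w 1) * b - b * (z 0 + w 0 + z 1 * w 1)) -
          z 1 * (w 1 * b - b * w 1) := by
      rw [add_mul, add_mul, mul_add, mul_add, ← (hc _ (zD 0) b hb).eq, ← mul_assoc b,
        ← (hc _ (zD 1) b hb).eq]
      noncomm_ring
    rw [x1]
    refine (map_sub_le_add ν _ _).trans ?_
    nlinarith
  · change ν (w 1 * b - b * w 1) ≤ _
    nlinarith
  · have h1 := H1 i b (l' hb)
    rw [add_mul, mul_add, (hc _ (zD _) b hb).eq, add_sub_add_left_eq_sub] at h1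
    nlinarith

/-- A sequence of pairwise commuting copies with uniform constants. -/
structure Sup {ι : Type} (r C : ℝ) (D : ℕ → Subring Q) (z : ℕ → ι → Q) : Prop where
  r1 : 1 ≤ r
  C0 : 0 < C
  mem : ∀ j i, z j i ∈ D j
  sa : ∀ j i, IsSelfAdjoint (z j i)
  le : ∀ j i, ‖z j i‖ ≤ r
  nc : ∀ j, NC (D j) (z j) C
  comm : ∀ j j', j ≠ j' → ∀ a ∈ D j, ∀ b ∈ D j', Commute a b

lemma comm_sup {D D' E : Subring Q} (h : ∀ a ∈ D, ∀ b ∈ E, Commute a b)
    (h' : ∀ a ∈ D', ∀ b ∈ E, Commute a b) : ∀ a ∈ D ⊔ D', ∀ b ∈ E, Commute a b := fun a ha b hb =>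
  (Subring.mem_centralizer_iff.1 ((sup_le
    (fun a ha => Subring.mem_centralizer_iff.2 fun b hb => (h a ha b hb).symm.eq)
    (fun a ha => Subring.mem_centralizer_iff.2 fun b hb => (h' a ha b hb).symm.eq) :
      D ⊔ D' ≤ Subring.centralizer (E : Set Q)) ha) b hb).symm

lemma Sup.step {n : ℕ} {r C : ℝ} {D : ℕ → Subring Q} {z : ℕ → Fin (n + 2) → Q} (h : Sup r C D z) :
    ∃ (r' C' : ℝ) (D' : ℕ → Subring Q) (z' : ℕ → Fin (n + 1) → Q), Sup r' C' D' z' := by
  have r1 := h.r1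
  have C0 := h.C0
  have ne : ∀ j, 2 * j ≠ 2 * j + 1 := fun j => by omega
  refine ⟨3 * r * r, C * (1 + 4 * r * r * C), fun j => D (2 * j) ⊔ D (2 * j + 1), fun j =>
    Fin.cons (z (2 * j) 0 + z (2 * j + 1) 0 + z (2 * j) 1 * z (2 * j + 1) 1)
      fun i => z (2 * j) i.succ.succ + z (2 * j + 1) i.succ.succ, by nlinarith, by positivity,
    fun j i => ?_, fun j i => ?_, fun j i => ?_, fun j => NC.merge (h.comm _ _ (ne j)) (h.mem _)
      (h.mem _) r1 C0.le (h.le _) (h.le _) (h.nc _) (h.nc _), fun j j' hj => ?_⟩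
  · have l : ∀ i, z (2 * j) i ∈ D (2 * j) ⊔ D (2 * j + 1) := fun i =>
      (le_sup_left : D (2 * j) ≤ _) (h.mem _ i)
    have l' : ∀ i, z (2 * j + 1) i ∈ D (2 * j) ⊔ D (2 * j + 1) := fun i =>
      (le_sup_right : D (2 * j + 1) ≤ _) (h.mem _ i)
    exact Fin.cases (add_mem (add_mem (l 0) (l' 0)) (mul_mem (l 1) (l' 1)))
      (fun i => add_mem (l _) (l' _)) i
  · exact Fin.cases (((h.sa _ 0).add (h.sa _ 0)).add
      (((h.sa _ 1).commute_iff (h.sa _ 1)).1 (h.comm _ _ (ne j) _ (h.mem _ 1) _ (h.mem _ 1))))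
      (fun i => (h.sa _ _).add (h.sa _ _)) i
  · refine Fin.cases ?_ (fun i => ?_) i
    · have := norm_add_le_of_le (norm_add_le_of_le (h.le (2 * j) 0) (h.le (2 * j + 1) 0))
        (norm_mul_le_of_le (h.le (2 * j) 1) (h.le (2 * j + 1) 1))
      exact this.trans (by nlinarith)
    · exact (norm_add_le_of_le (h.le _ _) (h.le _ _)).trans (by nlinarith)
  · have t : ∀ i, (i = 2 * j ∨ i = 2 * j + 1) → ∀ a ∈ D i, ∀ b ∈ D (2 * j') ⊔ D (2 * j' + 1),
        Commute a b := fun i hi a ha b hb =>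
      (comm_sup (h.comm _ _ (by omega)) (h.comm _ _ (by omega)) b hb a ha).symm
    exact comm_sup (t _ (.inl rfl)) (t _ (.inr rfl))

lemma Sup.one (n : ℕ) : ∀ {r C : ℝ} {D : ℕ → Subring Q} {z : ℕ → Fin (n + 1) → Q}, Sup r C D z →
    ∃ (r' C' : ℝ) (D' : ℕ → Subring Q) (z' : ℕ → Fin 1 → Q), Sup r' C' D' z' := by
  induction n with
  | zero => exact fun h => ⟨_, _, _, _, h⟩
  | succ n ih =>
    intro r C D z h
    obtain ⟨_, _, _, _, h'⟩ := h.step
    exact ih h'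

end Pool.Agent.Lib.MP_30b5b4_an
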