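import Pool.Agent.Lib.MP_30b5b4_an.N.A
import Pool.Agent.Lib.MP_30b5b4_an.T.Pt
import Pool.Agent.Lib.MP_30b5b4_an.S.K1

/-! Sums of commuting nowhere scalar elements wind around the circle. -/

set_option linter.unusedSectionVars false
set_option linter.unusedVariables false

namespace Pool.Agent.Lib.MP_30b5b4_an

universe u v

section
variable {B : Type u} [CStarAlgebra B] [PartialOrder B] [StarOrderedRing B] {Y v : B}

lemma n_kill {f g : ℝ → ℝ} (hf : Continuous f) (hg : Continuous g) {γ : ℝ} (hγ : 0 < γ)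
    (h : ∀ t ∈ spectrum ℝ Y, f t ≠ 0 → γ ≤ g t) (h0 : cfc g Y * v = 0) : cfc f Y * v = 0 := by
  have c : Continuous fun t => f t * Gf γ (g t) := hf.mul ((Gf_cont hγ).comp hg)
  have : cfc f Y = cfc (fun t => f t * Gf γ (g t)) Y * cfc g Y := by
    rw [cfc_mul' c hg]
    refine cfc_congr fun t ht => ?_
    by_cases h1 : f t = 0
    · simp [h1]
    · have h2 := h t ht h1
      simp only [Gf, max_eq_left h2]
      rw [inv_mul_cancel_right₀ (hγ.trans_le h2).ne']
  rw [this, mul_assoc, h0, mul_zero]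

lemma n_spec {r t : ℝ} (hr : ‖Y‖ ≤ r) (ht : t ∈ spectrum ℝ Y) : |t| ≤ r := by
  have := spectrum.norm_le_norm_mul_of_mem ht
  exact this.trans ((mul_le_of_le_one_right (norm_nonneg _) (norm_one_le' B)).trans hr)

lemma n_sub (hY : IsSelfAdjoint Y) (s : ℝ) : cfc (fun t => t - s) Y = Y - algebraMap ℝ B s := by
  rw [cfc_sub _ _ _, cfc_id' ℝ Y, cfc_const s Y]

/-- tent of half width `2 η` at `s` -/
noncomputable def tent (η s t : ℝ) : ℝ := max (2 * η - |t - s|) 0

@[fun_prop] lemma tent_cont (η s : ℝ) : Continuous (tent η s) := by unfold tent; fun_prop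

lemma n_eig (hY : IsSelfAdjoint Y) {η : ℝ} (hη : 0 < η) (s : ℝ) :
    ∃ h, ‖h‖ ≤ 2 * η ∧ (Y - algebraMap ℝ B s) * cfc (tent η s) Y = h * cfc (tent η s) Y := by
  refine ⟨cfc (fun t => max (-(2 * η)) (min (2 * η) (t - s))) Y,
    norm_cfc_le (by positivity) fun t _ => ?_, ?_⟩
  · exact abs_le.2 ⟨le_max_left _ _, max_le (by linarith) (min_le_left _ _)⟩
  · rw [← n_sub hY, cfc_mul' (by fun_prop) (tent_cont _ _), cfc_mul' (by fun_prop) (tent_cont _ _)]
    refine congrArg (cfc · Y) (funext fun t => ?_)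
    rcases le_total |t - s| (2 * η) with h | h
    · rw [min_eq_right (abs_le.1 h).2, max_eq_right (abs_le.1 h).1]
    · rw [tent, max_eq_right (sub_nonpos.2 h), mul_zero, mul_zero]

lemma n_low (hY : IsSelfAdjoint Y) {r η a : ℝ} (hr : ‖Y‖ ≤ r) (hη : 0 < η) (v0 : v ≠ 0)
    (ha : cfc (fun t => max (a - t) 0) Y * v = 0) :
    ∃ s, a ≤ s ∧ s ≤ r ∧ cfc (fun t => max (s - t) 0) Y * v = 0 ∧ cfc (tent η s) Y * v ≠ 0 := by
  classical
  have c1 : ∀ s, cfc (fun t => max (s - t) 0) Y * v = 0 → s ≤ r := fun s hs => not_lt.1 fun h => by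
    have := n_kill (f := fun _ => 1) continuous_const (by fun_prop) (sub_pos.2 h)
      (fun t ht _ => le_max_of_le_left (by linarith [(abs_le.1 (n_spec hr ht)).2])) hs
    rw [cfc_const_one ℝ Y, one_mul] at this
    exact v0 this
  have ex : ∃ i : ℕ, cfc (fun t => max (a + i * η - t) 0) Y * v ≠ 0 := by
    obtain ⟨i, hi⟩ := exists_nat_gt ((r - a) / η)
    exact ⟨i, fun h => by linarith [c1 _ h, (div_lt_iff₀ hη).1 hi]⟩
  obtain ⟨i, hi⟩ := Nat.exists_eq_succ_of_ne_zero (n := Nat.find ex) fun h => by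
    have := Nat.find_spec ex
    rw [h] at this
    exact this (by simpa using ha)
  have h1 := Nat.find_spec ex
  have h2 := not_not.1 (Nat.find_min ex (m := i) (by omega))
  rw [hi] at h1
  refine ⟨a + i * η, le_add_of_nonneg_right (by positivity), c1 _ h2, h2, fun h3 => h1 ?_⟩
  refine n_kill (g := fun t => tent η (a + i * η) t + max (a + i * η - t) 0) (by fun_prop)
    (by fun_prop) hη (fun t _ ht => ?_) (by rw [cfc_add _ _ _, add_mul, h3, h2, add_zero])
  have h4 : t < a + i * η + η := not_le.1 fun h => ht (max_eq_right (by push_cast; linarith))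
  have h5 := le_max_left (2 * η - |t - (a + i * η)|) 0
  have h6 := le_max_left (a + i * η - t) 0
  have h7 := le_max_right (a + i * η - t) 0
  unfold tent
  rcases abs_cases (t - (a + i * η)) with h | h <;> linarith [h.1]

lemma n_chain {D : ℕ → Set B} {y : ℕ → B} {r η η₀ : ℝ} (hη : 0 < η) (hη₀ : 0 < η₀)
    (sa : ∀ j, IsSelfAdjoint (y j)) (le : ∀ j, ‖y j‖ ≤ r) (mem : ∀ j, y j ∈ D j)
    (comm : ∀ j j', j ≠ j' → ∀ d ∈ D j, Commute d (y j'))
    (gap : ∀ j v, (∀ d ∈ D j, Commute d v) → ∀ s, cfc (fun t => max (t - s - η₀) 0) (y j) * v = 0 →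
      cfc (fun t => max (s - η₀ - t) 0) (y j) * v = 0 → v = 0) (m : ℕ) :
    ∀ v : B, v ≠ 0 → (∀ j < m, ∀ d ∈ D j, Commute d v) → ∃ s : ℕ → ℝ,
      (∀ k < m, s k + η₀ ≤ s (k + 1) ∧ s (k + 1) ≤ s k + 2 * r) ∧ ∀ k ≤ m, ∃ w h : B,
        (∀ q, (∀ j < m, Commute q (y j)) → Commute q w) ∧ w * v ≠ 0 ∧ ‖h‖ ≤ m * (2 * η) ∧
        (∑ j ∈ Finset.range m, y j - algebraMap ℝ B (s k)) * w = h * w := by
  induction m with
  | zero =>
    exact fun v v0 _ => ⟨0, by simp, fun k _ => ⟨1, 0, by simp, by simpa using v0, by simp, by simp⟩⟩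
  | succ m ih =>
    intro v v0 hv
    have ym : ∀ j < m, ∀ d ∈ D j, Commute d (y m) := fun j hj => comm j m hj.ne
    have yv : Commute (y m) v := hv m m.lt_succ_self _ (mem m)
    have fv : ∀ f : ℝ → ℝ, Commute (cfc f (y m)) v := fun f => yv.cfc_real f
    obtain ⟨t₀, a1, a2, a3, a4⟩ := n_low (sa m) (a := -r) (le m) hη v0 (by
      rw [cfc_congr (g := fun _ => 0) fun t ht =>
        max_eq_right (by linarith [(abs_le.1 (n_spec (le m) ht)).1]), cfc_const_zero, zero_mul])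
    obtain ⟨s, s1, s2⟩ := ih _ a4 fun j hj d hd =>
      ((ym j hj d hd).symm.cfc_real _).symm.mul_right (hv j (hj.trans m.lt_succ_self) d hd)
    have ext : ∀ k t w h, (∀ q, (∀ j < m, Commute q (y j)) → Commute q w) → ‖h‖ ≤ m * (2 * η) →
        (∑ j ∈ Finset.range m, y j - algebraMap ℝ B (s k)) * w = h * w →
        w * (cfc (tent η t) (y m) * v) ≠ 0 → ∃ w h : B,
        (∀ q, (∀ j < m + 1, Commute q (y j)) → Commute q w) ∧ w * v ≠ 0 ∧
        ‖h‖ ≤ (m + 1 : ℕ) * (2 * η) ∧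
        (∑ j ∈ Finset.range (m + 1), y j - algebraMap ℝ B (s k + t)) * w = h * w :=
      fun k t w h w1 w2 w3 w4 => by
      obtain ⟨h', b1, b2⟩ := n_eig (sa m) hη t
      have c1 : Commute (y m) w := w1 _ fun j hj => comm m j hj.ne' _ (mem m)
      have c2 : Commute (cfc (tent η t) (y m)) w := c1.cfc_real _
      refine ⟨w * cfc (tent η t) (y m), h + h', fun q hq =>
        (w1 q fun j hj => hq j (hj.trans m.lt_succ_self)).mul_right
          ((hq m m.lt_succ_self).symm.cfc_real _).symm, by rwa [mul_assoc],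
        (norm_add_le_of_le w2 b1).trans_eq (by push_cast; ring), ?_⟩
      rw [Finset.sum_range_succ, map_add, add_sub_add_comm, add_mul, add_mul, ← mul_assoc, w3,
        mul_assoc, ← c2.eq, ← mul_assoc (y m - _), b2, mul_assoc]
    obtain ⟨w, h, w1, w2, w3, w4⟩ := s2 m le_rfl
    have c1 : Commute (y m) w := w1 _ fun j hj => comm m j hj.ne' _ (mem m)
    have fw : ∀ f : ℝ → ℝ, cfc f (y m) * (w * v) = w * (cfc f (y m) * v) := fun f => by
      rw [← mul_assoc, (c1.cfc_real f).eq, mul_assoc]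
    have u0 : w * v ≠ 0 := fun h => w2 (by rw [← fw, h, mul_zero])
    have u1 : cfc (fun t => max (t - t₀ - η₀) 0) (y m) * (w * v) ≠ 0 := fun h => u0 (gap m _
      (fun d hd => (w1 d fun j hj => comm m j hj.ne' d hd).mul_right (hv m m.lt_succ_self d hd))
      t₀ h (by
        rw [fw, n_kill (by fun_prop) (by fun_prop) hη₀ (fun t _ ht => le_max_of_le_left
          (not_lt.1 fun h => ht (max_eq_right (by linarith)))) a3, mul_zero]))
    obtain ⟨t₁, b1, b2, -, b4⟩ := n_low (sa m) (a := t₀ + η₀) (le m) hη u1 (by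
      rw [← mul_assoc, cfc_mul' (by fun_prop) (by fun_prop), cfc_congr (g := fun _ => 0) fun t _ => by
        rcases le_total t (t₀ + η₀) with h | h
        · simp only [max_eq_right (show t - t₀ - η₀ ≤ 0 by linarith), mul_zero]
        · simp only [max_eq_right (show t₀ + η₀ - t ≤ 0 by linarith), zero_mul],
        cfc_const_zero, zero_mul])
    refine ⟨fun k => if k ≤ m then s k + t₀ else s m + t₁, fun k hk => ?_, fun k hk => ?_⟩
    · rcases (Nat.lt_succ_iff.1 hk).lt_or_eq with h | rfl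
      · simp only [if_pos h.le, if_pos (Nat.succ_le_of_lt h)]
        constructor <;> linarith [(s1 k h).1, (s1 k h).2]
      · simp only [if_pos le_rfl, if_neg (Nat.not_succ_le_self k)]
        constructor <;> linarith
    · by_cases h : k ≤ m
      · simp only [if_pos h]
        obtain ⟨w, h, w1, w2, w3, w4⟩ := s2 k h
        exact ext k t₀ w h w1 w3 w4 w2
      · simp only [if_neg h]
        refine ext m t₁ w _ w1 w3 w4 fun h0 => b4 ?_
        rw [← mul_assoc, (cfc_commute_cfc _ _ _).eq, mul_assoc, fw, h0, mul_zero]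

end

/-- tiers of the positive and the negative part of the sine -/
noncomputable def sg (m : ℕ) (b : Bool) (t : ℝ) : ℝ :=
  rp (1 / 8) m (Real.sin (Real.pi * (t + cond b 0 1)))

@[fun_prop] lemma sg_cont (m : ℕ) (b : Bool) : Continuous (sg m b) := by unfold sg; fun_prop

lemma sin_mid {x : ℝ} (h1 : 1 / 4 ≤ x) (h2 : x ≤ 3 / 4) : 1 / 2 ≤ Real.sin (Real.pi * x) := by
  have p := Real.pi_pos
  have k : ∀ x : ℝ, 1 / 4 ≤ x → x ≤ 1 / 2 → 1 / 2 ≤ Real.sin (Real.pi * x) := fun x h1 h2 => by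
    have := Real.mul_le_sin (x := Real.pi * x) (by positivity) (by nlinarith)
    rw [← mul_assoc, div_mul_cancel₀ _ p.ne'] at this
    linarith
  rcases le_total x (1 / 2) with h | h
  · exact k x h1 h
  · have := k (1 - x) (by linarith) (by linarith)
    rwa [mul_sub, mul_one, Real.sin_pi_sub] at this

lemma n_hit {σ : ℕ → ℝ} {m : ℕ} {δ : ℝ} (h : ∀ k < m, σ k + δ ≤ σ (k + 1) ∧ σ (k + 1) ≤ σ k + 1 / 8)
    (hm : 3 ≤ m * δ) : ∃ k ≤ m, ∀ t, |t - σ k| < 1 / 8 → 1 / 2 ≤ Real.sin (Real.pi * t) := by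
  classical
  have h1 : ∀ k ≤ m, σ 0 + k * δ ≤ σ k := fun k => by
    induction k with
    | zero => simp
    | succ k ih =>
      intro hk
      have := ih (Nat.le_of_succ_le hk)
      push_cast
      linarith [(h k hk).1]
  obtain ⟨n, hn⟩ : ∃ n : ℤ, n = ⌊(σ 0 - 3 / 8) / 2⌋ + 1 := ⟨_, rfl⟩
  have n1 : σ 0 < 2 * n + 3 / 8 := by
    have := Int.lt_floor_add_one ((σ 0 - 3 / 8) / 2)
    rw [hn]; push_cast; linarith
  have n2 : 2 * n + 3 / 8 ≤ σ m := by
    have := Int.floor_le ((σ 0 - 3 / 8) / 2)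
    rw [hn]; push_cast; linarith [h1 m le_rfl]
  have ex : ∃ k, 2 * n + 3 / 8 ≤ σ k := ⟨m, n2⟩
  obtain ⟨i, hi⟩ := Nat.exists_eq_succ_of_ne_zero (n := Nat.find ex) fun h => by
    have := Nat.find_spec ex
    rw [h] at this
    linarith
  have a1 := Nat.find_spec ex
  have a2 := not_le.1 (Nat.find_min ex (m := i) (by omega))
  have a3 := Nat.find_min' ex n2
  rw [hi] at a1 a3
  refine ⟨i + 1, a3, fun t ht => ?_⟩
  have a4 := (h i a3).2
  have a5 := abs_lt.1 ht
  have a6 : (2 * n + 3 / 8 : ℝ) ≤ σ (i + 1) := a1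
  have := sin_mid (x := t - 2 * n) (by linarith) (by linarith)
  rwa [show Real.pi * (t - 2 * n) = Real.pi * t - n * (2 * Real.pi) by ring,
    Real.sin_sub_int_mul_two_pi] at this

variable {Q : Type u} [CStarAlgebra Q] [PartialOrder Q] [StarOrderedRing Q]

lemma NC.gap {B : Type v} [CStarAlgebra B] [PartialOrder B] [StarOrderedRing B] (π : Q →⋆ₐ[ℂ] B)
    {D : Subring Q} {z : Fin 1 → Q} {C : ℝ} (C0 : 0 < C) (h : NC D z C) (mem : z 0 ∈ D)
    (sa : IsSelfAdjoint (z 0)) {v : B} (hv : ∀ d ∈ D, Commute (π d) v) (s : ℝ)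
    (h1 : cfc (fun t => max (t - s - 1 / (4 * C)) 0) (π (z 0)) * v = 0)
    (h2 : cfc (fun t => max (s - 1 / (4 * C) - t) 0) (π (z 0)) * v = 0) : v = 0 := by
  have e0 : 0 < 1 / (4 * C) := by positivity
  have e1 : C * (2 * (1 / (4 * C))) = 1 / 2 := by field_simp; norm_num
  generalize 1 / (4 * C) = η at *
  obtain ⟨g, hg⟩ : ∃ g, g = cfc (fun t => max (-η) (min η (t - s))) (π (z 0)) := ⟨_, rfl⟩
  have g1 : ‖g‖ ≤ η := hg ▸ norm_cfc_le e0.le fun t _ =>
    abs_le.2 ⟨le_max_left _ _, max_le (by linarith) (min_le_left _ _)⟩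
  have g2 : (π (z 0) - algebraMap ℝ B s) * v = g * v := by
    have : (fun t : ℝ => t - s) = fun t => max (-η) (min η (t - s)) + max (t - s - η) 0 -
        max (s - η - t) 0 := funext fun t => by
      simp only [max_def, min_def]
      split_ifs <;> linarith
    rw [← n_sub (sa.map π), this, cfc_sub _ _ _, cfc_add _ _ _, sub_mul, add_mul, h1, h2, hg]
    simp
  have v0 := norm_nonneg v
  have := h ((normAddGroupSeminorm B).comp ((AddMonoidHom.mulRight v).comp (π : Q →+ B)))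
    (fun a ha x => ⟨?_, ?_⟩) (2 * η * ‖v‖) (by positivity) fun i d hd => ?_
  · change ‖π 1 * v‖ ≤ _ at this
    rw [map_one, one_mul, ← mul_assoc, e1] at this
    exact norm_le_zero_iff.1 (by linarith)
  · change ‖π (a * x) * v‖ ≤ ‖a‖ * ‖π x * v‖
    rw [map_mul, mul_assoc]
    exact norm_mul_le_of_le (hom_norm_le π a) le_rfl
  · change ‖π (x * a) * v‖ ≤ ‖a‖ * ‖π x * v‖
    rw [map_mul, mul_assoc, (hv a ha).eq, ← mul_assoc, mul_comm ‖a‖]
    exact norm_mul_le_of_le le_rfl (hom_norm_le π a)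
  · change ‖π (z i * d - d * z i) * v‖ ≤ _
    have e : π (z i * d - d * z i) * v = g * v * π d - π d * (g * v) := by
      rw [Subsingleton.elim i 0, ← g2, map_sub, map_mul, map_mul, mul_assoc _ v, ← (hv d hd).eq,
        ← mul_assoc, ← mul_assoc, ← sub_mul]
      congr 1
      rw [sub_mul, mul_sub, Algebra.commutes]
      abel
    have a1 := norm_mul_le_of_le g1 (le_refl ‖v‖)
    rw [e]
    exact (norm_sub_le_of_le (norm_mul_le_of_le a1 (hom_norm_le π d))
      (norm_mul_le_of_le (hom_norm_le π d) a1)).trans_eq (by ring)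

theorem Sup.two {n : ℕ} {r C : ℝ} {D : ℕ → Subring Q} {z : ℕ → Fin (n + 1) → Q}
    (h : Sup r C D z) : ∃ Y : Q, IsSelfAdjoint Y ∧ ∀ b, Gen 1 (cfc (sg 2 b) Y) := by
  obtain ⟨r, C, D, z, h⟩ := Sup.one n h
  have r1 := h.r1
  have C0 := h.C0
  obtain ⟨c, hc⟩ : ∃ c : ℝ, c = 1 / (16 * r) := ⟨_, rfl⟩
  have c0 : 0 < c := by rw [hc]; positivity
  have c1 : c * (2 * r) = 1 / 8 := by rw [hc]; field_simp; norm_num
  have e0 : 0 < 1 / (4 * C) := by positivity
  obtain ⟨m, hm⟩ := exists_nat_ge (3 / (c * (1 / (4 * C))))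
  have sY : IsSelfAdjoint (c • ∑ j ∈ Finset.range m, z j 0) :=
    (IsSelfAdjoint.all c).smul (isSelfAdjoint_sum _ fun j _ => h.sa j 0)
  refine ⟨_, sY, fun b p hp => ?_⟩
  by_contra h1
  rw [map_one] at h1
  rw [hom_cfc _ (sg_cont _ _) sY, hom_real_smul, map_sum] at hp
  have sY' := sY.map p.π
  rw [hom_real_smul, map_sum] at sY'
  obtain ⟨s, s1, s2⟩ := n_chain (D := fun j => p.π '' D j) (y := fun j => p.π (z j 0)) (r := r)
    (η := 1 / (2 * (m + 1))) (by positivity) e0 (fun j => (h.sa j 0).map _)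
    (fun j => (hom_norm_le _ _).trans (h.le j 0)) (fun j => ⟨_, h.mem j 0, rfl⟩)
    (by rintro j j' hj _ ⟨d, hd, rfl⟩; exact (h.comm j j' hj d hd _ (h.mem j' 0)).map _)
    (fun j v hv s => (h.nc j).gap p.π C0 (h.mem j 0) (h.sa j 0) (fun d hd => hv _ ⟨d, hd, rfl⟩) s)
    m 1 h1 fun _ _ _ _ => Commute.one_right _
  obtain ⟨k, hk, k1⟩ := n_hit (σ := fun k => c * s k + cond b 0 1) (m := m)
    (δ := c * (1 / (4 * C))) (fun k hk => by
      have a1 := mul_le_mul_of_nonneg_left (s1 k hk).1 c0.le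
      have a2 := mul_le_mul_of_nonneg_left (s1 k hk).2 c0.le
      constructor <;> nlinarith) ((div_le_iff₀ (by positivity)).1 hm)
  obtain ⟨w, g, -, w2, w3, w4⟩ := s2 k hk
  generalize ∑ j ∈ Finset.range m, p.π (z j 0) = X at *
  have a1 : ∀ t ∈ spectrum ℝ (c • X), 1 / 8 ≤ |t - c * s k| := fun t ht => not_lt.1 fun h2 => by
    have h3 := k1 (t + cond b 0 1) (by rwa [add_sub_add_right_eq_sub])
    have h4 := (cfc_eq_cfc_iff_eqOn (f := sg 2 b) (g := fun _ => 0) sY').1
      (by rw [hp, cfc_const_zero]) ht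
    rw [sg, rp_one (by norm_num) (by linarith)] at h4
    exact one_ne_zero h4
  have q : (0 : ℝ) < 1 / 64 := by norm_num
  have f0 : Continuous fun t : ℝ => (t - c * s k) * Gf (1 / 64) ((t - c * s k) ^ 2) :=
    Continuous.mul (by fun_prop) ((Gf_cont q).comp (by fun_prop))
  have a2 : ∀ t ∈ spectrum ℝ (c • X), (t - c * s k) * Gf (1 / 64) ((t - c * s k) ^ 2) =
      (t - c * s k)⁻¹ := fun t ht => by
    have h2 := a1 t ht
    have h3 : t - c * s k ≠ 0 := fun h => by rw [h, abs_zero] at h2; linarith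
    rw [Gf, max_eq_left (by rw [← sq_abs]; nlinarith)]
    field_simp
  obtain ⟨K, hK⟩ : ∃ K, K = cfc (fun t : ℝ => (t - c * s k) * Gf (1 / 64) ((t - c * s k) ^ 2))
    (c • X) := ⟨_, rfl⟩
  have k2 : ‖K‖ ≤ 8 := hK ▸ norm_cfc_le (by norm_num) fun t ht => by
    rw [a2 t ht, Real.norm_eq_abs, abs_inv]
    exact inv_le_of_inv_le₀ (by norm_num) (by linarith [a1 t ht])
  have k3 : K * (c • X - algebraMap ℝ _ (c * s k)) = 1 := by
    rw [hK, ← n_sub sY', cfc_mul' f0 (by fun_prop), ← cfc_const_one ℝ (c • X)]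
    refine cfc_congr fun t ht => ?_
    have h2 := a1 t ht
    simp only [a2 t ht]
    exact inv_mul_cancel₀ fun h => by rw [h, abs_zero] at h2; linarith
  have k4 : w = c • (K * g * w) := by
    rw [mul_assoc, ← w4, ← mul_smul_comm, ← smul_mul_assoc, smul_sub, ← mul_assoc,
      Algebra.algebraMap_eq_smul_one, smul_smul, ← Algebra.algebraMap_eq_smul_one, k3, one_mul]
  have w5 : ‖g‖ ≤ 1 := w3.trans (by
    rw [mul_one_div, ← mul_div_assoc, div_le_one (by positivity)]; linarith)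
  have k5 := congrArg norm k4
  rw [norm_smul, Real.norm_of_nonneg c0.le] at k5
  have k6 := mul_le_mul_of_nonneg_left
    (norm_mul_le_of_le (norm_mul_le_of_le k2 w5) (le_refl ‖w‖)) c0.le
  have k7 : 0 ≤ c * (r - 1) * ‖w‖ := by have : 0 ≤ r - 1 := by linarith
                                        positivity
  have k8 : c * (2 * r) * ‖w‖ = 1 / 8 * ‖w‖ := by rw [c1]
  exact w2 (by rw [mul_one]; exact norm_le_zero_iff.1 (by nlinarith))

end Pool.Agent.Lib.MP_30b5b4_an
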