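import Pool.Agent.Lib.MP_30b5b4_an.N.B
import Pool.Agent.Lib.MP_30b5b4_an.S.A1

/-! Two orthogonal full central elements from coloured division. -/

set_option linter.unusedSectionVars false
set_option linter.unusedVariables false
set_option linter.style.haveILetI false

namespace Pool.Agent.Lib.MP_30b5b4_an

universe u v

variable {κ : Type} [Fintype κ]

/-- Relations of one level of coloured halving. -/
structure Sy {B : Type u} [CStarAlgebra B] (e : B) (g : κ × (Fin 2 ⊕ Fin (4 * 2)) → B) : Prop where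
  r1 : ∀ k, star (g (k, .inl 1)) * g (k, .inl 1) = star (g (k, .inl 0)) * g (k, .inl 0)
  r2 : ∀ k, star (g (k, .inl 0)) * g (k, .inl 1) = 0
  r3 : ∀ k l, ‖g (k, .inl l)‖ ≤ 1
  r4 : ∀ k t, star (g (k, .inl 0)) * g (k, .inl 0) * g (k, .inr t) = g (k, .inr t)
  r5 : (∑ k, ∑ t, star (g (k, .inr t)) * g (k, .inr t)) * e = e

section
variable {Q : Type u} [CStarAlgebra Q] [PartialOrder Q] [StarOrderedRing Q]

lemma Sy.le {g : κ × (Fin 2 ⊕ Fin (4 * 2)) → Q} (h : Sy 1 g) : ∀ a, ‖g a‖ ≤ 1 := by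
  rintro ⟨k, l | t⟩
  · exact h.r3 k l
  · refine norm_le_one_of_star_mul (le_trans ?_ ((mul_one _).symm.trans h.r5).le)
    exact (Finset.single_le_sum (f := fun t => star (g (k, .inr t)) * g (k, .inr t))
      (fun _ _ => star_mul_self_nonneg _) (Finset.mem_univ t)).trans (Finset.single_le_sum
      (f := fun k => ∑ t, star (g (k, .inr t)) * g (k, .inr t))
      (fun _ _ => Finset.sum_nonneg fun _ _ => star_mul_self_nonneg _) (Finset.mem_univ k))

lemma Sy.nc {g : κ × (Fin 2 ⊕ Fin (4 * 2)) → Q} (h : Sy 1 g) {D : Subring Q} (m1 : ∀ a, g a ∈ D)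
    (m2 : ∀ a, star (g a) ∈ D) {ι : Type} {z : ι → Q}
    (hz : ∀ k, ∃ i, z i = g (k, .inl 0) * star (g (k, .inl 0))) :
    NC D z (8 * Fintype.card κ + 1) := by
  intro ν hν ε ε0 H
  have l : ∀ {a x}, a ∈ D → ‖a‖ ≤ 1 → ν x ≤ ε → ν (a * x) ≤ ε ∧ ν (x * a) ≤ ε :=
    fun {a x} ha h1 h2 => by
      have := (mul_le_of_le_one_left (apply_nonneg ν x) h1).trans h2
      exact ⟨(hν a ha x).1.trans this, (hν a ha x).2.trans this⟩
  have key : ∀ k t, ν (star (g (k, .inr t)) * g (k, .inr t)) ≤ ε := fun k t => by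
    obtain ⟨i, hi⟩ := hz k
    have s : ∀ a, ‖star (g a)‖ ≤ 1 := fun a => (norm_star _).trans_le (h.le a)
    have h1 := H i _ (D.mul_mem (m1 (k, .inl 1)) (m2 (k, .inl 0)))
    rw [← map_neg_eq_map, neg_sub] at h1
    have h2 := (l (m1 (k, .inr t)) (h.le _) (l (m2 (k, .inr t)) (s _) (l (m1 (k, .inl 0)) (h.le _)
      (l (m2 (k, .inl 1)) (s _) (h1.trans (mul_le_of_le_one_right ε0
        ((norm_mul_le_of_le (h.le _) (s _)).trans_eq (one_mul 1))))).1).2).1).2
    refine le_of_eq_of_le (congrArg _ ?_) h2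
    have a1 := h.r1 k
    have a2 := h.r2 k
    have a3 := h.r4 k t
    rw [hi]
    generalize g (k, .inl 0) = c at *
    generalize g (k, .inl 1) = d at *
    generalize g (k, .inr t) = x at *
    have a4 : c * star c * (d * star c) = 0 := by
      rw [mul_assoc, ← mul_assoc (star c), a2, zero_mul, mul_zero]
    rw [a4, sub_zero, ← mul_assoc (star d), ← mul_assoc (star d), a1]
    simp only [mul_assoc] at a3 ⊢
    simp only [a3]
  have := h.r5
  rw [mul_one] at this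
  rw [← this]
  refine (Finset.le_sum_of_subadditive ν (map_zero ν).le (map_add_le_add ν) _ _).trans ?_
  refine (Finset.sum_le_sum fun k _ => (Finset.le_sum_of_subadditive ν (map_zero ν).le
    (map_add_le_add ν) _ _).trans (Finset.sum_le_sum fun t _ => key k t)).trans ?_
  simp only [Finset.sum_const, Finset.card_univ, Fintype.card_fin, nsmul_eq_mul]
  push_cast
  linarith

lemma sg_tier {m m' : ℕ} (h : m < m') (b : Bool) (Y : Q) :
    cfc (sg m b) Y * cfc (sg m' b) Y = cfc (sg m' b) Y := by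
  rw [cfc_mul' (sg_cont _ _) (sg_cont _ _)]
  exact congrArg (cfc · Y) (funext fun t => cl_tier h)

lemma sg_orth (Y : Q) : cfc (sg 0 true) Y * cfc (sg 0 false) Y = 0 := by
  rw [cfc_mul' (sg_cont _ _) (sg_cont _ _), ← cfc_const_zero ℝ Y]
  refine congrArg (cfc · Y) (funext fun t => ?_)
  simp only [sg, rp, cond, mul_add, mul_one, add_zero, Real.sin_add_pi, Nat.cast_zero,
    sub_zero]
  rcases le_total (Real.sin (Real.pi * t)) 0 with h | h
  · rw [cl_of_nonpos (by linarith), zero_mul]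
  · rw [cl_of_nonpos (x := -_ / _) (by linarith), mul_zero]

lemma Sy.two {g : ℕ → κ × (Fin 2 ⊕ Fin (4 * 2)) → Q} (h : ∀ j, Sy 1 (g j))
    (hc : ∀ j j', j < j' → ∀ a, g j' a ∈ Cn (Set.range (g j))) :
    ∃ C, ∃ Y : Q, IsSelfAdjoint Y ∧ ∀ b, Dom ∅ 1 1 (cfc (sg 1 b) Y) C := by
  let G : ℕ → Set Q := fun j => Set.range (g j) ∪ Set.range fun a => star (g j a)
  have m1 : ∀ j a, g j a ∈ Subring.closure (G j) := fun j a => Subring.subset_closure (.inl ⟨a, rfl⟩)
  have m2 : ∀ j a, star (g j a) ∈ Subring.closure (G j) := fun j a =>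
    Subring.subset_closure (.inr ⟨a, rfl⟩)
  have c1 : ∀ j j', j < j' → ∀ a ∈ G j, ∀ b ∈ G j', Commute a b := by
    rintro j j' hj _ (⟨a, rfl⟩ | ⟨a, rfl⟩) _ (⟨b, rfl⟩ | ⟨b, rfl⟩)
    exacts [(Cn_comm (hc j j' hj b) ⟨a, rfl⟩).symm, (Cn_comm (star_mem (hc j j' hj b)) ⟨a, rfl⟩).symm,
      (Cn_comm' (hc j j' hj b) ⟨a, rfl⟩).symm, (Cn_comm' (star_mem (hc j j' hj b)) ⟨a, rfl⟩).symm]
  have c2 : ∀ (U : Set Q) (b : Q), (∀ a ∈ U, Commute a b) → ∀ a ∈ Subring.closure U, Commute a b :=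
    fun U b h a ha => (Subring.mem_centralizer_iff.1 ((Subring.closure_le
      (t := Subring.centralizer {b})).2 (fun a ha => Subring.mem_centralizer_iff.2 fun _ hb =>
        hb ▸ (h a ha).symm.eq) ha) b rfl).symm
  have c3 : ∀ j j', j < j' → ∀ a ∈ Subring.closure (G j), ∀ b ∈ Subring.closure (G j'),
      Commute a b := fun j j' hj a ha b hb =>
    c2 _ b (fun a ha => (c2 _ a (fun b hb => (c1 j j' hj a ha b hb).symm) b hb).symm) a ha
  obtain ⟨Y, y1, y2⟩ := Sup.two (n := Fintype.card κ) (r := 1) (D := fun j => Subring.closure (G j))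
    (z := fun j => Fin.cons 0 fun i => g j ((Fintype.equivFin κ).symm i, .inl 0) *
      star (g j ((Fintype.equivFin κ).symm i, .inl 0)))
    ⟨le_rfl, by positivity, fun j i => Fin.cases (zero_mem _) (fun i => mul_mem (m1 _ _) (m2 _ _)) i,
      fun j i => Fin.cases (IsSelfAdjoint.zero Q) (fun i => IsSelfAdjoint.mul_star_self _) i,
      fun j i => Fin.cases (norm_zero.trans_le zero_le_one) (fun i => (norm_mul_le_of_le
        ((h j).le _) ((norm_star _).trans_le ((h j).le _))).trans_eq (one_mul 1)) i,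
      fun j => (h j).nc (m1 j) (m2 j) fun k => ⟨(Fintype.equivFin κ k).succ, by simp⟩,
      fun j j' hj a ha b hb => hj.lt_or_gt.elim (fun h => c3 j j' h a ha b hb)
        fun h => (c3 j' j h b hb a ha).symm⟩
  choose K V v1 v2 using fun b => Gen.sub (x := 1) (y2 b) zero_le_one (one_mul 1) (one_mul 1)
    (sg_tier one_lt_two b Y)
  refine ⟨K true + K false, Y, y1, fun b => ?_⟩
  have : Dom ∅ 1 1 (cfc (sg 1 b) Y) (K b) :=
    ⟨V b, fun t => mem_Cn.2 (by simp), by simpa using v1 b, v2 b⟩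
  exact (this.sub.mono le_rfl (nsmul_le_nsmul_left (Multiset.zero_le _) (by cases b <;> simp))).dom

end

theorem exists_uni (κ : Type) [Fintype κ] : ∃ C, ∀ (Q : Type u) [CStarAlgebra Q] [PartialOrder Q]
    [StarOrderedRing Q] (g : ℕ → κ × (Fin 2 ⊕ Fin (4 * 2)) → Q), (∀ j, Sy 1 (g j)) →
    (∀ j j', j < j' → ∀ a, g j' a ∈ Cn (Set.range (g j))) →
    ∃ Y : Q, IsSelfAdjoint Y ∧ ∀ b, Dom ∅ 1 1 (cfc (sg 1 b) Y) C := by
  by_contra H
  simp only [not_exists, not_forall] at H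
  choose Q i1 i2 i3 g g1 g2 g3 using H
  let G : ℕ → κ × (Fin 2 ⊕ Fin (4 * 2)) → Bdd Q := fun j a =>
    Bdd.of (fun n => g n j a) 1 fun n => (g1 n j).le a
  have e : ∀ n j a, Bdd.ev n (G j a) = g n j a := fun _ _ _ => rfl
  obtain ⟨C, Y, y1, y2⟩ := Sy.two (g := G) (fun j => ⟨fun k => Bdd.ext fun n => by
      simpa only [map_mul, map_star, e] using (g1 n j).r1 k, fun k => Bdd.ext fun n => by
      simpa only [map_mul, map_star, e, map_zero] using (g1 n j).r2 k,
      fun k l => Bdd.norm_le fun n => (g1 n j).r3 k l, fun k t => Bdd.ext fun n => by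
      simpa only [map_mul, map_star, e] using (g1 n j).r4 k t, Bdd.ext fun n => by
      simpa only [map_mul, map_star, map_sum, map_one, e] using (g1 n j).r5⟩)
    fun j j' hj a => mem_Cn.2 (by
      rintro _ ⟨b, rfl⟩
      exact ⟨Bdd.ext fun n => by
        simpa only [map_mul, e] using (mem_Cn.1 (g2 n j j' hj a) _ ⟨b, rfl⟩).1.eq,
        Bdd.ext fun n => by
        simpa only [map_mul, map_star, e] using (mem_Cn.1 (g2 n j j' hj a) _ ⟨b, rfl⟩).2.eq⟩)
  refine g3 C (Bdd.ev C Y) ⟨y1.map _, fun b => ?_⟩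
  obtain ⟨V, -, v1, v2⟩ := y2 b
  refine ⟨fun t => Bdd.ev C (V t), fun t => mem_Cn.2 (by simp), ?_, fun t => ?_⟩
  · simpa only [map_mul, map_star, map_sum, map_one] using congrArg (Bdd.ev C) v1
  · rw [← hom_cfc _ (sg_cont _ _) y1, ← map_mul, v2]

theorem exists_full2 (κ : Type) [Fintype κ] : ∃ C, ∀ {B : Type u} [CStarAlgebra B] [PartialOrder B]
    [StarOrderedRing B] {e : B}, DivP κ e → Full2 e C := by
  classical
  obtain ⟨C, hC⟩ := exists_uni.{u} κ
  refine ⟨C, fun {B} _ _ _ {e} hd S hS he => ?_⟩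
  obtain ⟨g, g1, g2⟩ := exists_seq_of_forall_finset_exists
    (fun g : κ × (Fin 2 ⊕ Fin (4 * 2)) → B => Sy e g ∧ ∀ a, g a ∈ Cn S)
    (fun g g' => ∀ a, g' a ∈ Cn (Set.range g)) fun s _ => by
      obtain ⟨c, γ, x, m1, m2, h1, h2, h3, h4, h5⟩ := hd (fun _ => 2) (fun _ => two_pos)
        (S ∪ ⋃ g ∈ s, Set.range g) (hS.union (s.finite_toSet.biUnion fun _ _ => Set.finite_range _))
      have m : ∀ a : κ × (Fin 2 ⊕ Fin (4 * 2)), a.2.elim (c a.1) (x a.1) ∈
          Cn (S ∪ ⋃ g ∈ s, Set.range g) := by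
        rintro ⟨k, l | t⟩
        exacts [m1 k l, m2 k t]
      exact ⟨fun a => a.2.elim (c a.1) (x a.1), ⟨⟨fun k => (h1 k 1).trans (h1 k 0).symm,
        fun k => h2 k 0 1 (by simp), fun k l => norm_le_one_of_star_mul ((h1 k l).trans_le (h3 k)),
        fun k t => (congrArg (· * x k t) (h1 k 0)).trans (h4 k t), h5⟩,
        fun a => Cn_mono Set.subset_union_left (m a)⟩, fun g hg a => Cn_mono
          ((Set.subset_biUnion_of_mem (u := Set.range) hg).trans Set.subset_union_right) (m a)⟩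
  haveI := Cn_closed S
  letI : PartialOrder (Cn S) := CStarAlgebra.spectralOrder _
  haveI : StarOrderedRing (Cn S) := CStarAlgebra.spectralOrderedRing _
  obtain ⟨p, hp⟩ := exists_pt (TwoSidedIdeal.mk' {x : Cn S | (x : B) * e = 0} (by simp)
    (fun {x y} (hx : _ * e = 0) (hy : _ * e = 0) => show (x + y : B) * e = 0 by
      rw [add_mul, hx, hy, add_zero])
    (fun {x} (hx : _ * e = 0) => show (-x : B) * e = 0 by rw [neg_mul, hx, neg_zero])
    (fun {x y} (hy : _ * e = 0) => show (x * y : B) * e = 0 by rw [mul_assoc, hy, mul_zero])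
    fun {x y} (hx : _ * e = 0) => show (x * y : B) * e = 0 by
      rw [mul_assoc, (Cn_comm y.2 he).eq, ← mul_assoc, hx, zero_mul]) (by
    rw [TwoSidedIdeal.coe_mk']
    exact isClosed_eq (by fun_prop) continuous_const)
  simp only [TwoSidedIdeal.mem_mk', Set.mem_ofPred_eq] at hp
  let G : ℕ → κ × (Fin 2 ⊕ Fin (4 * 2)) → Cn S := fun j a => ⟨g j a, (g1 j).2 a⟩
  obtain ⟨Y, y1, y2⟩ := hC p.Q (fun j a => p.π (G j a)) (fun j => ⟨fun k => by
      rw [← map_star, ← map_star, ← map_mul, ← map_mul]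
      exact congrArg _ (Subtype.ext ((g1 j).1.r1 k)), fun k => by
      rw [← map_star, ← map_mul, ← map_zero p.π]
      exact congrArg _ (Subtype.ext ((g1 j).1.r2 k)),
      fun k l => (hom_norm_le _ _).trans ((g1 j).1.r3 k l), fun k t => by
      rw [← map_star, ← map_mul, ← map_mul]
      exact congrArg _ (Subtype.ext ((g1 j).1.r4 k t)), by
      simp only [← map_star, ← map_mul, ← map_sum]
      rw [mul_one, ← map_one p.π, ← sub_eq_zero, ← map_sub, hp]
      have := (g1 j).1.r5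
      push_cast
      rw [sub_mul, one_mul, sub_eq_zero]
      exact this⟩)
    fun j j' hj a => mem_Cn.2 (by
      rintro _ ⟨b, rfl⟩
      have h1 := mem_Cn.1 (g2 j j' hj a) _ ⟨b, rfl⟩
      have h2 : Commute (G j b) (G j' a) := Subtype.ext h1.1.eq
      have h3 : Commute (star (G j b)) (G j' a) := Subtype.ext h1.2.eq
      exact ⟨h2.map _, by simpa only [map_star] using h3.map p.π⟩)
  obtain ⟨Y₀, rfl⟩ := p.surj Y
  obtain ⟨Z, hZ⟩ : ∃ Z : Cn S, Z = (1 / 2 : ℝ) • (Y₀ + star Y₀) := ⟨_, rfl⟩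
  have z1 : IsSelfAdjoint Z := hZ ▸ (IsSelfAdjoint.all _).smul (IsSelfAdjoint.add_star_self _)
  have z2 : p.π Z = p.π Y₀ := by
    rw [hZ, hom_real_smul, map_add, map_star, y1.star_eq, ← two_smul ℝ, smul_smul]
    norm_num
  have z3 : ∀ m b, ((cfc (sg m b) Z : Cn S) : B) = cfc (sg m b) (Z : B) := fun m b =>
    hom_cfc (Cn S).subtype (sg_cont _ _) z1
  refine ⟨fun b => cfc (sg 0 b) (Z : B), fun b => ⟨(z3 0 b).subst (motive := (· ∈ Cn S)) (Subtype.prop _),
    cfc_nonneg fun _ _ => cl_nonneg _, cfc_le_one _ _ fun _ _ => cl_le_one _⟩, sg_orth _, fun b => ?_⟩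
  obtain ⟨V, -, v1, v2⟩ := y2 b
  choose W hW using fun t => p.surj (V t)
  have w1 : ∀ t, p.π (cfc (sg 1 b) Z * W t) = V t := fun t => by
    rw [map_mul, hom_cfc _ (sg_cont _ _) z1, z2, hW, v2]
  refine ⟨fun t => (cfc (sg 1 b) Z * W t : Cn S), fun t => Subtype.prop _, ?_, fun t => ?_⟩
  · simp only [← w1, ← map_star, ← map_mul, ← map_sum, mul_one] at v1
    rw [← map_one p.π, ← sub_eq_zero, ← map_sub, hp] at v1
    push_cast at v1 ⊢
    rw [sub_mul, one_mul, sub_eq_zero] at v1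
    rw [mul_one]
    exact v1
  · push_cast
    rw [z3, ← mul_assoc, sg_tier one_pos]

end Pool.Agent.Lib.MP_30b5b4_an
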