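import Pool.Agent.Lib.MP_30b5b4_an.T.GH

/-! Coloured division in nowhere scattered ideals. -/

open scoped CStarAlgebra ComplexOrder Topology
open Filter

set_option linter.unusedSectionVars false
set_option linter.style.haveILetI false
set_option linter.unusedVariables false
set_option linter.unusedSimpArgs false
set_option synthInstance.maxSize 1000000

namespace Pool.Agent.Lib.MP_30b5b4_an

universe u v

/-- There is room for `m` copies under `P` in every block that `p` meets. -/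
def Rm {B : Type*} [CStarAlgebra B] (p P : B) (m : ℕ) : Prop :=
  ∀ T : B →ₗ[ℝ] ℝ, IsTr T → (∀ q, IsStarProjection q → T q = 0 ∨ 1 ≤ T q) → 0 < T p →
    (m : ℝ) ≤ T P ∧ T p ≤ 2 * T P

theorem fd_divF {F : Type*} [CStarAlgebra F] [PartialOrder F] [StarOrderedRing F]
    [FiniteDimensional ℂ F] {p P : F} (hp : IsStarProjection p) (hP : IsStarProjection P) {m : ℕ}
    (hm : 0 < m) (h : Rm p P m) :
    ∃ (g : F) (w : Fin m → F) (x : Fin (4 * m) → F), IsStarProjection g ∧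
      (∀ l, star (w l) * w l = g) ∧ (∀ l l', l ≠ l' → star (w l) * w l' = 0) ∧
      (∀ l, P * w l = w l ∧ w l * P = w l) ∧ ∑ t, star (x t) * x t = p ∧ ∀ t, g * x t = x t := by
  obtain ⟨M⟩ := exists_MU F
  have m0 : (0 : ℝ) < m := by exact_mod_cast hm
  have m1 : (1 : ℝ) ≤ m := by exact_mod_cast hm
  have P0 := fun b => (M.isTr b).nonneg hP.nonneg
  have n1 := fun b => Nat.floor_le (div_nonneg (P0 b) m0.le)
  obtain ⟨g, g1, g2⟩ := M.exists_rank (fun b => ⌊M.tr b P / m⌋₊) fun b =>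
    (n1 b).trans ((div_le_self (P0 b) m1).trans ((M.isTr b).mono hP.le_one))
  obtain ⟨w, w1, w2, w3⟩ := M.copies g1 m hP fun b => by
    rw [g2, mul_comm]; exact (le_div_iff₀ m0).1 (n1 b)
  obtain ⟨v, hv⟩ : ∃ v, v = w ⟨0, hm⟩ := ⟨_, rfl⟩
  have v1 : star v * v = g := hv ▸ w1 _
  have v2 : P * v = v := hv ▸ w3 _
  have v3 := range_proj (v1 ▸ g1)
  obtain ⟨x, x1, x2⟩ := M.cmp v3 (4 * m) hp fun b => by
    rw [(M.isTr b).comm v, v1, g2]
    have t0 := (M.isTr b).nonneg hp.nonneg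
    rcases t0.eq_or_lt with t1 | t1
    · rw [← t1]; positivity
    obtain ⟨t5, t6⟩ := h _ (M.isTr b) (fun q hq => M.tr_gap hq b) t1
    have t7 : (1 : ℝ) ≤ ⌊M.tr b P / m⌋₊ := by
      exact_mod_cast Nat.le_floor (by rw [Nat.cast_one, le_div_iff₀ m0]; linarith)
    have t8 := (div_lt_iff₀ m0).1 (Nat.lt_floor_add_one (M.tr b P / m))
    push_cast
    nlinarith
  have v4 : v * g = v := v1 ▸ mul_init_of_proj (v1 ▸ g1)
  refine ⟨v * star v, fun l => w l * star v, x, v3, fun l => ?_, fun l l' h => ?_, fun l => ⟨?_, ?_⟩,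
    x1, x2⟩
  · rw [star_mul, star_star, mul_assoc, ← mul_assoc (star _), w1, ← mul_assoc, v4]
  · rw [star_mul, star_star, mul_assoc, ← mul_assoc (star _), w2 l l' h, zero_mul, mul_zero]
  · rw [← mul_assoc, w3]
  · rw [mul_assoc, ← hP.isSelfAdjoint.star_eq, ← star_mul, v2]

lemma ult_divF {G : ℕ → Type v} [∀ k, CStarAlgebra (G k)] [∀ k, PartialOrder (G k)]
    [∀ k, StarOrderedRing (G k)] [∀ k, FiniteDimensional ℂ (G k)] {p P : Bdd G}
    (hp : IsStarProjection p) (hP : IsStarProjection P) {m : ℕ} (hm : 0 < m)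
    (h : ∀ᶠ n in (om : Filter ℕ), Rm (Bdd.ev n p) (Bdd.ev n P) m) :
    ∃ (g : Ult G) (w : Fin m → Ult G) (x : Fin (4 * m) → Ult G), IsStarProjection g ∧
      (∀ l, star (w l) * w l = g) ∧ (∀ l l', l ≠ l' → star (w l) * w l' = 0) ∧
      (∀ l, Ult.mk P * w l = w l ∧ w l * Ult.mk P = w l) ∧ ∑ t, star (x t) * x t = Ult.mk p ∧
      ∀ t, g * x t = x t := by
  have : ∀ n, ∃ (g : G n) (w : Fin m → G n) (x : Fin (4 * m) → G n), IsStarProjection g ∧
      (∀ l, star (w l) * w l = g) ∧ (∀ l l', l ≠ l' → star (w l) * w l' = 0) ∧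
      (∀ l, Bdd.ev n P * w l = w l ∧ w l * Bdd.ev n P = w l) ∧ (∀ t, ‖x t‖ ≤ 1) ∧
      (∀ t, g * x t = x t) ∧ (Rm (Bdd.ev n p) (Bdd.ev n P) m →
      ∑ t, star (x t) * x t = Bdd.ev n p) := fun n => by
    by_cases h : Rm (Bdd.ev n p) (Bdd.ev n P) m
    · obtain ⟨g, w, x, g1, w1, w2, w3, x1, x2⟩ := fd_divF (hom_proj _ hp) (hom_proj _ hP) hm h
      exact ⟨g, w, x, g1, w1, w2, w3, fun t => norm_le_one_of_star_mul ((Finset.single_le_sum
        (f := fun t => star (x t) * x t) (fun _ _ => star_mul_self_nonneg _)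
        (Finset.mem_univ t)).trans (x1.trans_le (hom_proj _ hp).le_one)), x2, fun _ => x1⟩
    · exact ⟨0, 0, 0, by simp, by simp, by simp, by simp, by simp, by simp, fun h' => (h h').elim⟩
  choose g w x g1 w1 w2 w3 x0 x2 x1 using this
  have w0 : ∀ n l, ‖w n l‖ ≤ 1 := fun n l =>
    norm_le_one_of_star_mul ((w1 n l).trans_le (g1 n).le_one)
  refine ⟨Ult.mk (Bdd.of g 1 fun n => (g1 n).norm_le),
    fun l => Ult.mk (Bdd.of (fun n => w n l) 1 fun n => w0 n l),
    fun t => Ult.mk (Bdd.of (fun n => x n t) 1 fun n => x0 n t), hom_proj _ (bdd_proj g1),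
    fun l => ?_, fun l l' hl => ?_, fun l => ⟨?_, ?_⟩, ?_, fun t => ?_⟩ <;>
    simp only [← map_star, ← map_mul, ← map_sum]
  · exact congrArg _ (Bdd.ext fun n => by simpa [map_star] using w1 n l)
  · rw [← map_zero Ult.mk]
    exact congrArg _ (Bdd.ext fun n => by simpa [map_star] using w2 n l l' hl)
  · exact congrArg _ (Bdd.ext fun n => by simpa using (w3 n l).1)
  · exact congrArg _ (Bdd.ext fun n => by simpa using (w3 n l).2)
  · exact Ult.mk_congr (h.mono fun n hn => by simpa [map_star] using x1 n hn)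
  · exact congrArg _ (Bdd.ext fun n => by simpa using x2 n t)

variable {J : Type*} {A : Type u} [NonUnitalCStarAlgebra J] [PartialOrder J] [StarOrderedRing J]
  [CStarAlgebra A] [PartialOrder A] [StarOrderedRing A] {j : J →⋆ₙₐ[ℂ] A} {N : ℕ}

/-- coloured division from finitely many orthogonal families -/
theorem Ap.ndivF (hA : ApA A N) (m : Fin N → ℕ) (hm : ∀ i, 0 < m i) {α ι : Type*} [Fintype α]
    [Fintype ι] (hι : ∀ i, 2 * m i ≤ Fintype.card ι) {x X : UA A} (x0 : 0 ≤ x)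
    (x1 : x ≤ 1) (X0 : 0 ≤ X) (X1 : X ≤ 1) (hX : X * x = x) (y z : α → ι → UA A)
    (y0 : ∀ a j, 0 ≤ y a j) (y1 : ∀ a j, y a j ≤ 1) (z0 : ∀ a j, star (z a j) = z a j)
    (zy : ∀ a j, z a j * y a j = y a j) (zz : ∀ a j j', j ≠ j' → z a j * z a j' = 0)
    (Xz : ∀ a j, X * z a j = z a j) (K : (α → ι) → ℕ) (V : ∀ σ, α × Fin (K σ) → UA A)
    (h1 : ∀ σ, (∑ k, star (V σ k) * V σ k) * x = x) (h2 : ∀ σ k, y k.1 (σ k.1) * V σ k = V σ k) :
    ∃ (c : ∀ i, Fin (m i) → UA A) (γ : Fin N → UA A) (ξ : ∀ i, Fin (4 * m i) → UA A),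
      (∀ i l, ‖c i l‖ ≤ 1) ∧ (∀ i t, ‖ξ i t‖ ≤ 1) ∧ (∀ i l, star (c i l) * c i l = γ i) ∧
      (∀ i l l', l ≠ l' → star (c i l) * c i l' = 0) ∧ (∀ i t, γ i * ξ i t = ξ i t) ∧
      ∑ i, ∑ t, star (ξ i t) * ξ i t ≤ 1 ∧
      (∀ u, x * u = u → (∑ i, ∑ t, star (ξ i t) * ξ i t) * u = u) ∧
      ∀ u, u * X = 0 → ∀ i l, u * c i l = 0 ∧ u * star (c i l) = 0 := by
  classical
  obtain ⟨c, c1, c2⟩ := hA.ultra1 (fun o : (Bool ⊕ Bool × α × ι) ⊕ Σ σ, α × Fin (K σ) =>
    o.elim (fun o => o.elim (cond · x X) fun p => cond p.1 (y p.2.1 p.2.2) (z p.2.1 p.2.2))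
      fun p : Σ σ, α × Fin (K σ) => V p.1 p.2)
  have hx : ∀ i, x ∈ Vs (c i) := fun i => c1 i (.inl (.inl true))
  have hX' : ∀ i, X ∈ Vs (c i) := fun i => c1 i (.inl (.inl false))
  have hy : ∀ i a j, y a j ∈ Vs (c i) := fun i a j => c1 i (.inl (.inr (true, a, j)))
  have hz : ∀ i a j, z a j ∈ Vs (c i) := fun i a j => c1 i (.inl (.inr (false, a, j)))
  obtain ⟨δ, hδ⟩ : ∃ δ : ℝ, δ = 1 / (16 * ((N : ℝ) + 1)) := ⟨_, rfl⟩
  have δ0 : 0 < δ := by rw [hδ]; positivity
  choose P hP using fun i => exists_alive (c i) δ0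
  choose p hp using fun i => (hP i).half (hx i) x0 x1 three_pos
  choose q hq using fun i => (hP i).half (hX' i) X0 X1 one_pos
  choose r hr using fun i a j => (hP i).half (hy i a j) (y0 a j) (y1 a j) two_pos
  choose g w ξ g1 w1 w2 w3 ξ1 ξ2 using fun i => ult_divF (hp i).proj (hq i).proj (hm i) (by
      have a1 := fun σ => (hP i).tr (ι := Unit) (x := fun _ => x) (V := fun k _ => V σ k)
        (fun k => hy i k.1 (σ k.1)) (fun k _ => c1 i (.inr ⟨σ, k⟩)) (by simpa using h1 σ)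
        (fun k _ => by rw [h2]) (Nat.lt_succ_self 2) (fun _ => hp i) fun k => hr i k.1 (σ k.1)
      have a2 := fun a => (hP i).tr (κ := Unit) (x := y a) (V := fun _ j => z a j) (fun _ => hX' i)
        (fun _ j => hz i a j) (fun j j' => by
          split_ifs with h
          · simp [h, z0, mul_assoc, zy]
          · simp [z0, zz a j j' h]) (fun _ j => by rw [Xz]) one_lt_two (hr i a) fun _ => hq i
      have a3 := (hP i).tr (ι := Unit) (κ := Unit) (x := fun _ => x) (V := fun _ _ => 1)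
        (fun _ => hX' i) (fun _ _ => one_mem _) (by simp) (by simpa using hX)
        (show 1 < 3 by norm_num) (fun _ => hp i) fun _ => hq i
      filter_upwards [eventually_all.2 a1, eventually_all.2 a2, a3] with n b1 b2 b3 T hT gap t1
      refine ⟨?_, by simpa using b3 T hT⟩
      obtain ⟨a, ha⟩ : ∃ a, ∀ j, 1 ≤ T (Bdd.ev n (r i a j)) := by
        by_contra h0
        push Not at h0
        choose σ hσ using h0
        have := b1 σ T hT
        rw [Finset.sum_eq_zero (s := (Finset.univ : Finset (α × Fin (K σ)))) fun k _ =>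
          (gap _ (hom_proj _ (hr i k.1 (σ k.1)).proj)).resolve_right (hσ _).not_ge] at this
        simp only [Finset.univ_unique, Finset.sum_singleton, mul_zero] at this
        exact t1.not_ge this
      have t3 : (Fintype.card ι : ℝ) ≤ ∑ j, T (Bdd.ev n (r i a j)) := by
        simpa using Finset.sum_le_sum fun j (_ : j ∈ Finset.univ) => ha j
      have t4 : (2 * m i : ℝ) ≤ Fintype.card ι := by exact_mod_cast hι i
      have t5 := b2 a T hT
      simp only [Finset.univ_unique, Finset.sum_singleton] at t5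
      linarith)
  obtain ⟨G, v, v1, v2, v4, v3⟩ := backsum c c2 P hP hx three_pos two_pos
    (hδ ▸ delta_le N (by norm_num)) p hp ξ ξ1
  have o : ∀ i, OZ (spm (uφ (c i)) δ 1) := fun i => (uφ_oz _).spm_oz δ0
  have o1 : ∀ i, spm (uφ (c i)) δ 1 1 ≤ 1 := fun i =>
    ((uφ_oz _).spm_one δ0 one_pos).trans_le (rp_unit _ _ _).2
  refine ⟨fun i l => spm (uφ (c i)) δ 1 (w i l),
    fun i => spm (uφ (c i)) δ 1 1 * spm (uφ (c i)) δ 1 (g i), v, fun i l =>
    ((o i).cp.norm_le (o1 i) _).trans (norm_le_one_of_star_mul ((w1 i l).trans_le (g1 i).le_one)),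
    v2, fun i l => by rw [(o i).star_mul_self, w1], fun i l l' hl => ?_, fun i t => ?_, v4, v3,
    fun u hu i l => ⟨(hq i).supp (hP i) (hX' i) one_pos one_pos (w3 i l).1 hu, ?_⟩⟩
  · rw [← (o i).cp.map_star, (o i).mul_eq_zero (w2 i l l' hl)]
  · rw [v1, ← mul_assoc, mul_assoc _ _ (spm _ _ 2 _), (uφ_oz _).spm_mul δ0 one_pos, ← mul_assoc (g i),
      ξ2, spm_tier δ0 one_lt_two, (uφ_oz _).spm_one δ0 one_pos, spm_tier δ0 one_lt_two]
  · rw [← (o i).cp.map_star]
    refine (hq i).supp (hP i) (hX' i) one_pos one_pos ?_ hu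
    rw [← (hom_proj Ult.mk (hq i).proj).isSelfAdjoint.star_eq, ← star_mul, (w3 i l).2]

theorem Gen.subF {α : Type*} [Fintype α] {x g g' : A} {z y : α → A}
    (h : ∀ p : Pt A, (∀ a, p.π (z a) = 0) → p.π g' = 0) (g0 : 0 ≤ g) (hg : g' * g = g)
    (hx : g * x = x) (hy : ∀ a, y a * z a = z a) :
    ∃ (K : ℕ) (V : α × Fin K → A), (∑ t, star (V t) * V t) * x = x ∧ ∀ t, y t.1 * V t = V t := by
  obtain ⟨K, a, b, h1⟩ := Gen.approx (x := g') (y := ∑ i, star (z i) * z i) (fun p hp => h p fun i => by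
    rw [map_sum, Finset.sum_eq_zero_iff_of_nonneg fun _ _ =>
      hom_nonneg _ (star_mul_self_nonneg _)] at hp
    simpa only [map_mul, map_star, CStarRing.star_mul_self_eq_zero_iff] using
      hp i (Finset.mem_univ i)) one_half_pos
  let r : Fin (K + K) → A := Fin.append (fun t => star (a t)) b
  obtain ⟨ζ, hζ⟩ := polarF (H := ∑ t : α × Fin (K + K), star (z t.1 * r t.2) * (z t.1 * r t.2)) g0
    (Finset.sum_nonneg fun t _ => star_mul_self_nonneg _) one_pos (by
      set s := ∑ t, a t * (∑ i, star (z i) * z i) * b t with hs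
      have e1 : s + star s ≤ ∑ t : α × Fin (K + K), star (z t.1 * r t.2) * (z t.1 * r t.2) := by
        simp only [hs, Finset.mul_sum, Finset.sum_mul]
        rw [Finset.sum_comm, Fintype.sum_prod_type]
        simp only [r, star_sum, Fin.sum_univ_add, Fin.append_left, Fin.append_right,
          ← Finset.sum_add_distrib]
        refine Finset.sum_le_sum fun i _ => Finset.sum_le_sum fun t _ => ?_
        simpa [mul_assoc] using cross_le (z i * star (a t)) (z i * b t)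
      have e2 : g' - s + star (g' - s) ≤ (1 : ℝ) • 1 := sa_le_of_norm (IsSelfAdjoint.add_star_self _)
        ((norm_add_le_of_le h1 ((norm_star _).trans_le h1)).trans (add_halves 1).le)
      have e3 := star_left_conjugate_le_conjugate (add_le_add e1 e2) g
      have e4 : g * star g' = g := by simpa [g0.star_eq] using congrArg star hg
      rw [g0.star_eq, show s + star s + (g' - s + star (g' - s)) = g' + star g' by
        rw [star_sub]; abel, mul_add, add_mul, mul_assoc g g', hg, e4, mul_add, add_mul, one_smul,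
        mul_one] at e3
      rw [one_smul]
      exact le_of_add_le_add_right e3)
  refine ⟨K + K, fun t => z t.1 * (r t.2 * ζ), ?_, fun t => by rw [← mul_assoc, hy]⟩
  have : ∑ t : α × Fin (K + K), star (z t.1 * (r t.2 * ζ)) * (z t.1 * (r t.2 * ζ)) = g * g := by
    rw [← hζ, Finset.mul_sum, Finset.sum_mul]
    simp only [star_mul, mul_assoc]
  rw [this, mul_assoc, hx, hx]

theorem NS.ndiv (hN : NS j) (hj : Idl j) (hA : ApA A N) : NDiv j N := by
  intro δ hδ m hm b hb b0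
  have hδ' := half_pos hδ
  have e : ∀ k, dg (cfc (rp δ k) b) = cfc (rp δ k) (dg b : UA A) := fun k =>
    hom_cfc _ (rp_cont _ _) b0.isSelfAdjoint
  obtain ⟨n, hn⟩ : ∃ n, n = 2 * ∑ i, m i := ⟨_, rfl⟩
  let Λ := {q : (Fin n → A) × (Fin n → ℝ) × A // (∀ l, 0 ≤ q.1 l ∧
    (1 - cfc (rp δ 2) b) * q.1 l = 0 ∧ 0 < q.2.1 l ∧ Gen q.2.2 (cfc (rp (q.2.1 l) 3) (q.1 l))) ∧
    ∀ l l', l ≠ l' → q.1 l * q.1 l' = 0}
  have b7 := hj.cfc_mem hb (rp_cont (δ / 2) 7) (rp_at_zero _ _)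
  obtain ⟨F, γ₀, γ0, hF⟩ := cpt (fun q : Λ => q.1.2.2) b0 (η := 4 * δ) (by positivity)
    fun p hp h1 => by
      have h2 : p.π (cfc (rp (δ / 2) 7) b) ≠ 0 := fun h0 => by
        have := (p.rp_eq_zero hδ' 7 b0).1 h0
        push_cast at this
        linarith
      obtain ⟨ζ, f, -, a2, a3, a4, a5⟩ := hN.loc hj p b7 (rp_unit _ _ _).1 h2
        (b' := cfc (rp (δ / 2) 6) b) IsSelfAdjoint.cfc (rp_tier (by norm_num) b) n
      have f0 : ∀ l, 0 ≤ cfc (f l) ζ := fun l => cfc_nonneg fun t _ => (a4 l).2.2.1 t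
      have f1 : ∀ l, 0 < ‖p.π (cfc (f l) ζ)‖ / 4 := fun l =>
        div_pos (norm_pos_iff.2 (a4 l).2.2.2) four_pos
      obtain ⟨w, -, -, w3, w4⟩ := hp.prod hj b7 h2 Finset.univ
        (fun l => cfc (rp (‖p.π (cfc (f l) ζ)‖ / 4) 3) (cfc (f l) ζ)) fun l _ h0 => by
          have := (p.rp_eq_zero (f1 l) 3 (f0 l)).1 h0
          push_cast at this
          linarith [f1 l]
      refine ⟨⟨(fun l => cfc (f l) ζ, fun l => ‖p.π (cfc (f l) ζ)‖ / 4, w), fun l =>
        ⟨f0 l, mul_cfc_eq_zero a2 (a3 _ ?_) (a4 l).1 (a4 l).2.1, f1 l, w4 l (Finset.mem_univ l)⟩,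
        fun l l' hl => ?_⟩, w3⟩
      · rw [sub_mul, rp_mix hδ hδ' (by push_cast; linarith) b, one_mul, sub_self]
      · simp only [cfc_mul' (a4 l).1 (a4 l').1, a5 l l' hl]
        exact cfc_zero ℝ ζ
  let Y : ℕ → F → Fin n → A := fun k a l => cfc (rp (a.1.1.2.1 l) k) (a.1.1.1 l)
  have ys : ∀ (a : F) l, IsSelfAdjoint (a.1.1.1 l) := fun a l => (a.1.2.1 l).1.isSelfAdjoint
  choose K V v1 v2 using fun σ : F → Fin n => Gen.subF (g' := cfc (rp δ 4) b)
    (z := fun a => Y 3 a (σ a)) (y := fun a => Y 2 a (σ a))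
    (fun p hp => (p.rp_eq_zero hδ 4 b0).2 (not_lt.1 fun h1 => by
      obtain ⟨a, ha, h2⟩ := hF p (by exact_mod_cast h1.le)
      rw [(a.2.1 (σ ⟨a, ha⟩)).2.2.2 p (hp ⟨a, ha⟩), norm_zero] at h2
      exact γ0.not_ge h2)) (rp_unit δ 5 b).1 (rp_tier (by norm_num) b)
    (rp_tier (m' := 6) (by norm_num) b) fun a => rp_tier (by norm_num) _
  have one : ∀ {a : A}, a ≤ 1 → (dg a : UA A) ≤ 1 := fun h => by simpa using hom_mono dg h
  obtain ⟨c, γ, ξ, h1, -, h3, h4, h5, h6, h7, h8⟩ := Ap.ndivF hA m hm (ι := Fin n)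
    (fun i => by
      rw [Fintype.card_fin, hn]
      exact Nat.mul_le_mul_left 2
        (Finset.single_le_sum (fun _ _ => Nat.zero_le _) (Finset.mem_univ i)))
    (hom_nonneg dg (rp_unit δ 6 b).1) (one (rp_unit δ 6 b).2) (hom_nonneg dg (rp_unit δ 2 b).1)
    (one (rp_unit δ 2 b).2) (by rw [← map_mul, rp_tier (by norm_num)])
    (fun a l => dg (Y 2 a l)) (fun a l => dg (Y 1 a l))
    (fun a l => hom_nonneg _ (rp_unit _ _ _).1) (fun a l => one (rp_unit _ _ _).2)
    (fun a l => (hom_nonneg _ (rp_unit _ _ _).1).star_eq)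
    (fun a l => by rw [← map_mul, rp_tier one_lt_two])
    (fun a l l' hl => by
      rw [← map_mul, cfc_mul_eq_zero (ys a l) (mul_cfc_eq_zero (ys a l') (a.1.2.2 l l' hl)
        (rp_cont _ _) (rp_at_zero _ _)) (rp_cont _ _) (rp_at_zero _ _), map_zero])
    (fun a l => by
      have := mul_cfc_eq_zero (ys a l) (a.1.2.1 l).2.1 (rp_cont (a.1.1.2.1 l) 1) (rp_at_zero _ _)
      rw [sub_mul, one_mul, sub_eq_zero] at this
      rw [← map_mul, ← this]) K (fun σ k => dg (V σ k))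
    (fun σ => by simp only [← map_star, ← map_mul, ← map_sum, v1])
    fun σ k => by rw [← map_mul, v2]
  simp only [e] at h7 h8
  have s : ∀ k, star (cfc (rp δ k) (dg b : UA A)) = cfc (rp δ k) (dg b) := fun k =>
    IsSelfAdjoint.cfc.star_eq
  have a1 : ∑ i, ∑ t, star (ξ i t * cfc (rp δ 7) (dg b)) * (ξ i t * cfc (rp δ 7) (dg b)) =
      star (cfc (rp δ 7) (dg b : UA A)) * (∑ i, ∑ t, star (ξ i t) * ξ i t) * cfc (rp δ 7) (dg b) := by
    simp only [Finset.mul_sum, Finset.sum_mul, star_mul, mul_assoc]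
  have a2 := h8 (1 - cfc (rp δ 1) (dg b)) (by rw [sub_mul, rp_tier one_lt_two, one_mul, sub_self])
  simp only [sub_mul, one_mul, sub_eq_zero] at a2
  refine ⟨c, γ, fun i t => ξ i t * cfc (rp δ 7) (dg b), h3, h4, fun i => ?_,
    fun i t => by rw [← mul_assoc, h5], ?_, ?_, fun i l => ⟨(a2 i l).1.symm, ?_⟩, fun i t => ?_⟩
  · rw [← h3 i ⟨0, hm i⟩]
    exact le_one_of_norm (star_mul_self_nonneg _) (by
      rw [CStarRing.norm_star_mul_self]; exact mul_le_one₀ (h1 _ _) (norm_nonneg _) (h1 _ _))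
  · rw [a1, mul_assoc, rp_tier (by norm_num), mul_assoc, h7 _ (rp_tier (by norm_num) _), s,
      rp_tier (by norm_num)]
  · rw [a1]
    refine (star_left_conjugate_le_conjugate h6 _).trans ?_
    rw [mul_one, s]
    exact (mul_unit (rp_unit _ _ _).1 (rp_unit _ _ _).2 (rp_unit _ _ _).1 (rp_unit _ _ _).2
      (Commute.refl _)).2
  · simpa [s] using congrArg star (a2 i l).2.symm
  · rw [mul_assoc, ← s 7, ← s 1, ← star_mul, rp_tier (by norm_num)]

end Pool.Agent.Lib.MP_30b5b4_an
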