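import Pool.Agent.Lib.MP_30b5b4_an.N.C
import Pool.Agent.Lib.MP_30b5b4_an.N.D
import Pool.Agent.Lib.MP_30b5b4_an.T.St
import Pool.Agent.Lib.MP_30b5b4_an.S.L3
import Pool.Agent.Lib.MP_30b5b4_an.S.Q2

/-! Nowhere scattered algebras of finite nuclear dimension have dimension at most one. -/

open scoped CStarAlgebra ComplexOrder Topology
open Filter

set_option linter.unusedSectionVars false
set_option linter.style.haveILetI false
set_option linter.unusedSimpArgs false
set_option linter.unusedVariables false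

namespace Pool.Agent.Lib.MP_30b5b4_an

universe u

theorem NS.slots {J : Type*} {A : Type u} [NonUnitalCStarAlgebra J] [PartialOrder J]
    [StarOrderedRing J] [CStarAlgebra A] [PartialOrder A] [StarOrderedRing A] {j : J →⋆ₙₐ[ℂ] A}
    {N : ℕ} (hN : NS j) (hj : Idl j) (hI : Ap j N False) (hA : ApA A N) {e : UA A}
    (he : e ∈ Iw j) : Slots e := by
  obtain ⟨C, hC⟩ := exists_full2.{u} (Fin N × Fin N)
  have hd := fun e he => hI.divP hj (hN.ndiv hj hA) (e := e) he
  exact hI.slots hj hA (fun K _ _ => ⟨_, fun e he => (hd e he).weak (hC (hd e he)) K⟩) he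

variable {E : Type u} [NonUnitalCStarAlgebra E] [PartialOrder E] [StarOrderedRing E]

theorem slots_reduce (h : ∀ e ∈ Ju E, Slots e) {n : ℕ} (hn : NucDimLE E n) : NucDimLE E 1 := by
  classical
  refine (Ap.of_ball fun S ε hε hS => ?_).nucDimLE (idl_inc E).inj
  let F : Set (UA E⁺¹) := (fun a => dg (inc E a)) '' S
  have F0 : F.Finite := S.finite_toSet.image _
  have F1 : ∀ a ∈ F, ‖a‖ ≤ 1 := by
    rintro _ ⟨a, ha, rfl⟩
    exact (hom_norm_le _ _).trans ((NonUnitalStarAlgHom.norm_apply_le _ _).trans (hS a ha))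
  obtain ⟨e, e0, e1, e2, e3, e4⟩ := exists_tier F0
  have e5 : ∀ a ∈ F, e * a = a := fun a ha => e4 a ha (by
    obtain ⟨a, -, rfl⟩ := ha
    exact ⟨cst (inc E a), fun _ => ⟨a, rfl⟩, rfl⟩)
  obtain ⟨_, ⟨f, f0, rfl⟩, f1, f2, f3, f4⟩ := exists_tier (F0.insert e)
  have f5 : Ult.mk f * e = e := f4 e (by simp) e0
  have f6 : e * Ult.mk f = e := by rw [← e1.star_eq, ← f1.star_eq, ← star_mul, f5]
  obtain ⟨M, hM⟩ := exists_nat_gt (48 / ε)
  have M0 : (0 : ℝ) < M := lt_trans (by positivity) hM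
  have M1 : 0 < M := by exact_mod_cast M0
  let T := Option (Fin (n + 1) × Option (Fin (M + 2) × Option (Fin (n + 1) × Bool)))
  obtain ⟨c, x, γ, s, c0, x0⟩ := h e e0 (Fin (M + 1) × T) (Fintype.one_lt_card_iff.2
    ⟨(0, none), (0, some (0, none)), by simp⟩) (F0.insert e)
  let μ : Fin (M + 1) → ℝ := fun p => (p : ℕ) / M
  have μ0 : ∀ p, 0 ≤ μ p := fun p => by positivity
  have μ1 : ∀ p, μ p ≤ 1 := fun p => (div_le_one M0).2 (by exact_mod_cast p.is_le)
  obtain ⟨u0, u1, -⟩ := s.weight (fun l => μ l.1) (fun l => μ0 _) fun l => μ1 _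
  set u := ∑ l, μ l.1 • gr 3 (c l) with hu
  have u2 : u ∈ Cn (insert e F) := sum_mem fun l _ => by
    rw [← Complex.coe_smul]; exact SMulMemClass.smul_mem _ (gr_mem (c0 l) 3)
  let g : Bool → UA E⁺¹ := fun b => cond b u (1 - u)
  have g0 : ∀ b, 0 ≤ g b ∧ g b ≤ 1 ∧ g b ∈ Cn (insert e F) := by
    rintro (_ | _)
    exacts [⟨sub_nonneg.2 u1, sub_le_self _ u0, sub_mem (one_mem _) u2⟩, ⟨u0, u1, u2⟩]
  have g1 : ∀ b, Commute (g b) e := fun b => Cn_comm (g0 b).2.2 (by simp)
  let S' := insert e F ∪ (Set.range c ∪ Set.range x ∪ Set.range g ∪ Set.range fun b => g b * e)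
  obtain ⟨q, r, ρ, Z, R, st, hq⟩ := stack (hn.unitization.ap _) (Fin (M + 2))
    (fun I _ hI S hS => h e e0 I hI hS) (S := S') ((F0.insert e).union
      ((((Set.finite_range _).union (Set.finite_range _)).union (Set.finite_range _)).union
        (Set.finite_range _))) (Or.inl (Or.inl rfl)) (fun _ ha => Or.inl (Or.inr ha)) F1
    (fun b => g b * e) (fun b => ⟨Or.inr (Or.inr ⟨b, rfl⟩),
      (mul_unit (g0 b).1 (g0 b).2.1 e1 e2 (g1 b)).1, (mul_unit (g0 b).1 (g0 b).2.1 e1 e2 (g1 b)).2,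
      fun a ha => (Cn_comm (g0 b).2.2 (Or.inr ha)).mul_left (Cn_comm e3 ha)⟩)
    (Finset.univ : Finset (Option (Fin (M + 1) × T)))
  obtain ⟨V, v0, v1, v2, v3⟩ := st.finish (Or.inl (Or.inl rfl))
    (fun o => o.elim (none, Fin.last _) fun p => (p.2, p.1.castSucc)) (by
      rintro (_ | p) (_ | p') hp
      · rfl
      · exact ((Fin.castSucc_lt_last _).ne' (congrArg Prod.snd hp)).elim
      · exact ((Fin.castSucc_lt_last _).ne (congrArg Prod.snd hp)).elim
      · exact congrArg some (Prod.ext (Fin.castSucc_injective _ (congrArg Prod.snd hp))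
          (congrArg Prod.fst hp)))
  obtain ⟨v, w0, w1, w2, w3, w4⟩ := copies s Set.subset_union_left (Or.inl rfl) c0 x0
    (fun l => by simp [S']) (fun l => by simp [S']) st.mq v0 v1 v2 v3 μ μ0 μ1
  have q1 : ∀ b, Commute q (g b) := fun b => Cn_comm st.mq (Or.inr (Or.inl (Or.inr ⟨b, rfl⟩)))
  have q2 : Commute q e := Cn_comm st.mq (by simp [S'])
  have m1 : ∀ {z}, z ∈ Cn (insert e F) → z ∈ Cn F := Cn_mono (Set.subset_insert _ _)
  have key : ∀ b, ∃ W ∈ unitary (UA E⁺¹), (∀ z ∈ F, Commute W z) ∧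
      ‖W * (g b * (1 - (1 - q) * e)) - g b * W‖ ≤ 12 / M := fun b => by
    refine level' (g0 b).1 (g0 b).2.1 st.q0 st.q1 e1 e2 (q1 b) q2 (g1 b) M1
      (fun p => v (cond b p.succ p.rev.castSucc)) (fun p => w1 _) (fun p => w2 _)
      (fun p p' hp => w3 _ _ ?_) (fun p => ?_) (m1 (g0 b).2.2)
      (Cn_mono (fun _ ha => Or.inl (Or.inr ha)) st.mq) e3 fun p => m1 (w0 _)
    · cases b <;> simpa using hp
    · cases b
      · simp only [g, cond]
        rw [sub_mul, w4, one_mul, sub_eq_iff_eq_add, ← add_smul]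
        simp only [μ, Fin.val_castSucc, Fin.val_rev]
        rw [Nat.cast_sub p.2, ← add_div]
        simp [M0.ne']
      · simp only [g, cond]
        rw [w4]
        simp [μ]
  have fin : ∀ b, ∃ d : ℕ → Colour (inc E), ∀ a ∈ S,
      ‖sT d a - g b * dg (inc E a)‖ ≤ 3 * (ε / 24) + 12 / M := fun b => by
    obtain ⟨W, W1, W2, W3⟩ := key b
    obtain ⟨W, rfl⟩ := Ult.surj W
    obtain ⟨d, hd⟩ := (hq b).finish (fstS E) fstS_ker F1 (w := W * f)
      (by simpa using (idl_inc E).Lf_both W 1 f0)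
      (by rw [map_mul, CStarRing.norm_mem_unitary_mul _ W1]; exact norm_le_one_of f1 f2)
      (by rw [map_mul, star_mul, mul_assoc (star _), ← mul_assoc (star (Ult.mk W)), W1.1, one_mul,
        f1.star_eq, mul_assoc, mul_assoc, mul_sub, ← mul_assoc e, f6, f6, mul_one, sub_self,
        mul_zero, mul_zero]) (show 0 < ε / 24 by positivity)
    refine ⟨d, fun a ha => ?_⟩
    have a0 : dg (inc E a) ∈ F := ⟨a, ha, rfl⟩
    have a1 := hd a a0
    generalize dg (inc E a) = y at a0 a1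
    have a2 : y * Ult.mk f = y := by
      rw [← (Cn_comm f3 (Or.inr a0)).eq, ← e5 y a0, ← mul_assoc, f5]
    have a3 : y * star (Ult.mk W) = star (Ult.mk W) * y := by
      rw [← one_mul (y * _), ← W1.1, mul_assoc, ← mul_assoc (Ult.mk W), (W2 y a0).eq, mul_assoc,
        W1.2, mul_one]
    have a4 : Ult.mk (W * f) * (q * (g b * e) * y) * star (Ult.mk (W * f)) - g b * y =
        (Ult.mk W * (g b * (1 - (1 - q) * e)) - g b * Ult.mk W) * star (Ult.mk W) * y := by
      have b1 : g b * (1 - (1 - q) * e) * y = q * (g b * e) * y := by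
        rw [mul_assoc, sub_mul, mul_assoc _ e, e5 y a0, sub_mul, one_mul, sub_sub_cancel, mul_assoc,
          mul_assoc, e5 y a0, ← mul_assoc q, (q1 b).eq, mul_assoc]
      have b2 : Ult.mk f * (q * (g b * e) * y) = q * (g b * e) * y := by
        rw [(g1 b).eq, ← mul_assoc q, q2.eq, ← mul_assoc, ← mul_assoc, ← mul_assoc, f5]
      rw [map_mul, star_mul, f1.star_eq, mul_assoc (Ult.mk W), b2, sub_mul, sub_mul,
        mul_assoc (g b) (Ult.mk W), W1.2, mul_one, mul_assoc _ (star _) y, ← a3, ← b1]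
      simp only [mul_assoc, ← mul_assoc y, a2]
    have a5 := norm_add_le_of_le a1 (a4 ▸ norm_mul_le_of_le
      ((CStarRing.norm_mul_mem_unitary _ (Unitary.star_mem W1)).trans_le W3) (F1 y a0))
    rwa [sub_add_sub_cancel, mul_one] at a5
  choose d hd using fin
  refine sT_finish ![d true, d false] S fun a ha => ?_
  have a1 := norm_add_le_of_le (hd true a ha) (hd false a ha)
  have a2 : 12 / (M : ℝ) < ε / 4 := by
    rw [div_lt_iff₀ hε] at hM
    rw [div_lt_iff₀ M0]; linarith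
  refine lt_of_le_of_lt (le_trans (le_of_eq (congrArg _ ?_)) a1) (by linarith)
  simp only [Fin.sum_univ_two, Matrix.cons_val_zero, Matrix.cons_val_one, g, cond, sub_mul, one_mul]
  abel

theorem NowhereScattered.reduce (h : NowhereScattered E) {n : ℕ} (hn : NucDimLE E n) :
    NucDimLE E 1 :=
  slots_reduce (fun e he => (h.ns (idl_inc E)).slots (idl_inc E) (hn.ap _)
    (hn.unitization.ap _) he) hn

variable {I D : Type*} [NonUnitalCStarAlgebra I] [PartialOrder I] [StarOrderedRing I]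
  [NonUnitalCStarAlgebra D] [PartialOrder D] [StarOrderedRing D] {ι : I →⋆ₙₐ[ℂ] E}
  {π : E →⋆ₙₐ[ℂ] D}

theorem Ext.ns (h : Ext ι π) (hI : NowhereScattered I) (hD : NowhereScattered D) :
    NowhereScattered E := by
  intro K hK p p1 p2 p3
  have k0 : ∀ i a b, ∃ i', ι i' = a * ι i * b := fun i a b =>
    (h.ex _).1 (by rw [map_mul, map_mul, (h.ex _).2 ⟨i, rfl⟩, mul_zero, zero_mul])
  by_cases H : ∀ i, p * ι i * p ∈ K
  · let M : Set E := {x | ∀ a b, p * (a * x * b) * p ∈ K}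
    have m1 : ∀ x ∈ K, x ∈ M := fun x hx a b =>
      K.mul_mem_right _ _ (K.mul_mem_left _ _ (K.mul_mem_right _ _ (K.mul_mem_left _ _ hx)))
    have m2 : ∀ x ∈ M, ∀ y ∈ M, x + y ∈ M := fun x hx y hy a b => by
      rw [mul_add, add_mul, mul_add, add_mul]
      exact K.add_mem (hx a b) (hy a b)
    have m3 : π ⁻¹' (π '' M) = M := Set.Subset.antisymm (by
      rintro x ⟨y, hy, e⟩
      obtain ⟨i, hi⟩ := (h.ex (x - y)).1 (by rw [map_sub, e, sub_self])
      rw [← add_sub_cancel y x, ← hi]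
      refine m2 y hy _ fun a b => ?_
      obtain ⟨i', hi'⟩ := k0 i a b
      exact hi' ▸ H i') (Set.subset_preimage_image _ _)
    let L := TwoSidedIdeal.mk' (π '' M) ⟨0, m1 0 K.zero_mem, map_zero _⟩
      (by rintro _ _ ⟨x, hx, rfl⟩ ⟨y, hy, rfl⟩; exact ⟨x + y, m2 x hx y hy, map_add _ _ _⟩)
      (by
        rintro _ ⟨x, hx, rfl⟩
        exact ⟨-x, fun a b => by simpa using K.neg_mem (hx a b), map_neg _ _⟩)
      (by
        rintro r _ ⟨x, hx, rfl⟩
        obtain ⟨r, rfl⟩ := h.surj r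
        exact ⟨r * x, fun a b => by rw [← mul_assoc a]; exact hx _ b, map_mul _ _ _⟩)
      (by
        rintro _ r ⟨x, hx, rfl⟩
        obtain ⟨r, rfl⟩ := h.surj r
        exact ⟨x * r, fun a b => by rw [← mul_assoc a, mul_assoc _ r]; exact hx a _, map_mul _ _ _⟩)
    have l1 : ∀ x ∈ K, π x ∈ L := fun x hx => (TwoSidedIdeal.mem_mk' ..).2 ⟨x, m1 x hx, rfl⟩
    have l2 : IsClosed (L : Set D) := by
      rw [TwoSidedIdeal.coe_mk', ← (ContinuousLinearMap.isQuotientMap
        (⟨(π : E →ₗ[ℂ] D), map_continuous π⟩ : E →L[ℂ] D) h.surj).isClosed_preimage]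
      change IsClosed (π ⁻¹' (π '' M))
      rw [m3]
      simp only [M, Set.ofPred_forall]
      exact isClosed_iInter fun a => isClosed_iInter fun b => hK.preimage (by fun_prop)
    have l3 := hD L l2 (π p) (by simpa using l1 _ p1) (by simpa [map_star] using l1 _ p2) fun x => by
      obtain ⟨x, rfl⟩ := h.surj x
      exact (p3 x).imp fun c hc => by simpa using l1 _ hc
    have l4 : p ∈ M := m3.le ((TwoSidedIdeal.mem_mk' ..).1 l3 : π p ∈ π '' M)
    have := K.sub_mem (l4 p p) (K.add_mem (K.add_mem p1 (K.mul_mem_left p _ p1))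
      (K.mul_mem_left (p * p) _ (K.add_mem p1 (K.mul_mem_left p _ p1))))
    convert this using 1
    noncomm_ring
  · push Not at H
    obtain ⟨i, hi⟩ := H
    obtain ⟨_, Q, _, _, _, q, -, -, a3, a4⟩ := exists_ext hK
    have e : ∀ x, x ∈ K ↔ q x = 0 := fun x => (a4 x).symm.trans (a3 x).symm
    simp only [e, map_sub, map_mul, map_star, map_smul, sub_eq_zero] at p1 p2 p3 hi ⊢
    obtain ⟨c, hc⟩ := p3 (ι i)
    have c0 : c ≠ 0 := fun h0 => hi (by rw [hc, h0, zero_smul])
    obtain ⟨i', hi'⟩ := k0 i (c⁻¹ • p) p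
    have e1 : q (ι i') = q p := by
      rw [hi', map_mul, map_mul, map_smul, smul_mul_assoc, smul_mul_assoc, hc, smul_smul,
        inv_mul_cancel₀ c0, one_smul]
    have := hI (TwoSidedIdeal.ker (q.comp ι)) (by
      simp only [SetLike.coe, TwoSidedIdeal.mem_ker]
      exact isClosed_eq (map_continuous (q.comp ι)) continuous_const) i'
    simp only [TwoSidedIdeal.mem_ker, map_sub, map_mul, map_star, map_smul, sub_eq_zero,
      NonUnitalStarAlgHom.comp_apply, e1] at this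
    exact this p1 p2 fun x => p3 _

theorem Ext.nowhere (h : Ext ι π) (hI : NowhereScattered I) (hD : NowhereScattered D) :
    nucDim E = Max.max (nucDim I) (nucDim D) ∧ (nucDim E ≤ 1 ∨ nucDim E = ⊤) := by
  have hE := h.ns hI hD
  refine ⟨le_antisymm ?_ (max_le (le_iInf₂ fun n hn => iInf₂_le n (h.ideal hn))
    (le_iInf₂ fun n hn => iInf₂_le n (h.quot hn))), ?_⟩
  · rcases iInf_cases (NucDimLE I) with h1 | ⟨n, hn, h1⟩
    · rw [nucDim.eq_def I, h1]; simp
    rcases iInf_cases (NucDimLE D) with h2 | ⟨m, hm, h2⟩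
    · rw [nucDim.eq_def D, h2]; simp
    have h3 : nucDim E ≤ 1 := iInf₂_le 1 (hE.reduce (h.sum hn hm))
    rw [nucDim.eq_def I, nucDim.eq_def D, h1, h2, ← Nat.mono_cast.map_max]
    rcases Nat.eq_zero_or_pos (Max.max n m) with h4 | h4
    · refine (iInf₂_le _ (h.sum hn hm)).trans (le_of_eq (congrArg _ ?_))
      omega
    · exact h3.trans (by exact_mod_cast h4)
  · rcases iInf_cases (NucDimLE E) with h1 | ⟨n, hn, -⟩
    · exact .inr h1
    · exact .inl (iInf₂_le 1 (hE.reduce hn))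

end Pool.Agent.Lib.MP_30b5b4_an
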