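import Pool.Agent.Lib.MP_30b5b4_an.N.E

/-! The bound for extensions of nowhere scattered algebras, as one inequality. -/

namespace Pool.Agent.Lib.MP_30b5b4_an

theorem Ext.nowhere_le {I E D : Type*} [NonUnitalCStarAlgebra I] [PartialOrder I]
    [StarOrderedRing I] [NonUnitalCStarAlgebra E] [PartialOrder E] [StarOrderedRing E]
    [NonUnitalCStarAlgebra D] [PartialOrder D] [StarOrderedRing D] {ι : I →⋆ₙₐ[ℂ] E}
    {π : E →⋆ₙₐ[ℂ] D} (h : Ext ι π) (hI : NowhereScattered I) (hD : NowhereScattered D)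
    (hf : Max.max (nucDim I) (nucDim D) ≠ ⊤) :
    nucDim E ≤ min 1 (Max.max (nucDim I) (nucDim D)) := by
  obtain ⟨h1, h2⟩ := h.nowhere hI hD
  exact le_min (h2.resolve_right (h1 ▸ hf)) h1.le

end Pool.Agent.Lib.MP_30b5b4_an
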